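import Mathlib

/-!
# Short paths and vertex cuts: walks as functions, splicing

`Wk G w B x n f`: the function `f` describes a walk with `n` edges from `x` to `w` which avoids
`B` after its first vertex.
-/

set_option autoImplicit false

namespace Pool.Agent.H30.Chung

variable {V : Type*} (G : SimpleGraph V) (w : V)

/-- `f 0, ..., f n` is a walk from `x` to `w` which avoids `B` after its first vertex. -/
structure Wk (B : Set V) (x : V) (n : ℕ) (f : ℕ → V) : Prop where
  zero : f 0 = x
  last : f n = w
  adj : ∀ i < n, G.Adj (f i) (f (i + 1))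
  avoid : ∀ i, 0 < i → i ≤ n → f i ∉ B

/-- Two walks share only the vertex `w`. -/
def Apart (n : ℕ) (f : ℕ → V) (m : ℕ) (g : ℕ → V) : Prop :=
  ∀ i ≤ n, ∀ j ≤ m, f i = g j → f i = w

/-- Two walks from `x` to `w` sharing only these two vertices, of length at most `L`. -/
structure Pair (B : Set V) (x : V) (L : ℕ) (n : Bool → ℕ) (f : Bool → ℕ → V) : Prop where
  wk : ∀ a, Wk G w B x (n a) (f a)
  le : ∀ a, n a ≤ L
  dis : ∀ a i j, i ≤ n a → j ≤ n (!a) → f a i = f (!a) j → f a i = w ∨ (i = 0 ∧ j = 0)

/-- Prepend a vertex. -/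
def cons (a : V) (f : ℕ → V) : ℕ → V
  | 0 => a
  | (k + 1) => f k

@[simp] theorem cons_zero (a : V) (f : ℕ → V) : cons a f 0 = a := rfl
@[simp] theorem cons_succ (a : V) (f : ℕ → V) (k : ℕ) : cons a f (k + 1) = f k := rfl

variable {G w}

theorem Wk.mono {B B' : Set V} {x : V} {n : ℕ} {f : ℕ → V} (h : Wk G w B' x n f) (hB : B ⊆ B') :
    Wk G w B x n f :=
  ⟨h.zero, h.last, h.adj, fun i hi hn hb => h.avoid i hi hn (hB hb)⟩

theorem Wk.cons {B : Set V} {a x : V} {n : ℕ} {f : ℕ → V} (h : Wk G w B x n f)
    (hax : G.Adj a x) (hx : x ∉ B) : Wk G w B a (n + 1) (cons a f) := by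
  refine ⟨rfl, h.last, ?_, ?_⟩
  · intro i hi
    rcases i with _ | i
    · simpa [h.zero] using hax
    · simpa using h.adj i (by omega)
  · intro i hi hn
    rcases i with _ | i
    · omega
    · rcases i with _ | i
      · simpa [h.zero] using hx
      · simpa using h.avoid (i + 1) (by omega) (by omega)

theorem Wk.shift {B : Set V} {x : V} {n : ℕ} {f : ℕ → V} (h : Wk G w B x n f) {i : ℕ}
    (hi : i ≤ n) : Wk G w B (f i) (n - i) (fun k => f (i + k)) := by
  refine ⟨by simp, ?_, ?_, ?_⟩
  · show f (i + (n - i)) = w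
    rw [show i + (n - i) = n by omega]; exact h.last
  · intro k hk
    have := h.adj (i + k) (by omega)
    simpa [add_assoc] using this
  · intro k hk hn
    exact h.avoid (i + k) (by omega) (by omega)

/-- Follow `g` up to index `j` and then `f` from index `i`. -/
def splice (g : ℕ → V) (j : ℕ) (f : ℕ → V) (i : ℕ) : ℕ → V :=
  fun k => if k ≤ j then g k else f (i + (k - j))

theorem splice_le {g : ℕ → V} {j : ℕ} {f : ℕ → V} {i k : ℕ} (h : k ≤ j) :
    splice g j f i k = g k := by simp [splice, h]

theorem splice_gt {g : ℕ → V} {j : ℕ} {f : ℕ → V} {i k : ℕ} (h : j < k) :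
    splice g j f i k = f (i + (k - j)) := by simp [splice, not_le.2 h]

theorem Wk.splice {B : Set V} {x y : V} {n m : ℕ} {f g : ℕ → V} (hf : Wk G w B x n f)
    (hg : Wk G w B y m g) {i j : ℕ} (hi : i ≤ n) (hj : j ≤ m) (e : f i = g j) :
    Wk G w B y (j + (n - i)) (splice g j f i) := by
  refine ⟨?_, ?_, ?_, ?_⟩
  · rw [splice_le (Nat.zero_le _)]; exact hg.zero
  · by_cases h : n - i = 0
    · rw [h, add_zero, splice_le le_rfl, ← e]
      have : i = n := by omega
      rw [this]; exact hf.last
    · rw [splice_gt (by omega), show i + (j + (n - i) - j) = n by omega]; exact hf.last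
  · intro k hk
    rcases lt_trichotomy k j with h | h | h
    · rw [splice_le (by omega), splice_le (by omega)]; exact hg.adj k (by omega)
    · subst h
      rw [splice_le le_rfl, splice_gt (by omega), ← e, show i + (k + 1 - k) = i + 1 by omega]
      exact hf.adj i (by omega)
    · rw [splice_gt h, splice_gt (by omega), show i + (k + 1 - j) = i + (k - j) + 1 by omega]
      exact hf.adj _ (by omega)
  · intro k hk hn
    by_cases h : k ≤ j
    · rw [splice_le h]; exact hg.avoid k hk (by omega)
    · rw [splice_gt (by omega)]; exact hf.avoid _ (by omega) (by omega)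

theorem Apart.symm {n m : ℕ} {f g : ℕ → V} (h : Apart w n f m g) : Apart w m g n f :=
  fun i hi j hj e => by rw [e]; exact h j hj i hi e.symm

theorem Apart.cons_left {n m : ℕ} {f g : ℕ → V} {a : V} (h : Apart w n f m g)
    (ha : ∀ j ≤ m, g j ≠ a) : Apart w (n + 1) (cons a f) m g := by
  intro i hi j hj e
  rcases i with _ | i
  · exact absurd e.symm (ha j hj)
  · exact h i (by omega) j hj e

theorem Apart.cons_right {n m : ℕ} {f g : ℕ → V} {a : V} (h : Apart w n f m g)
    (ha : ∀ j ≤ n, f j ≠ a) : Apart w n f (m + 1) (cons a g) :=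
  (h.symm.cons_left ha).symm

/-- The mixing lemma. -/
theorem mix {B Z : Set V} {x y : V} {α β Λ : ℕ} {n m : Bool → ℕ} {f g : Bool → ℕ → V}
    (hf : ∀ a, Wk G w B x (n a) (f a)) (hg : ∀ a, Wk G w B y (m a) (g a))
    (hfn : ∀ a, α + n a ≤ Λ) (hgm : ∀ a, β + m a ≤ Λ)
    (hff : ∀ a i j, i ≤ n a → j ≤ n (!a) → f a i = f (!a) j → f a i = w ∨ (i = 0 ∧ j = 0))
    (hgg : ∀ a i j, i ≤ m a → j ≤ m (!a) → g a i = g (!a) j → g a i = w ∨ (i = 0 ∧ j = 0))
    (hxy : x ≠ y) (hxg : ∀ b, ∀ j ≤ m b, g b j ≠ x)
    (hyf : ∀ a, ∀ i ≤ n a, f a i = y → β ≤ α + i)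
    (hfZ : ∀ a, ∀ i ≤ n a, f a i ∉ Z) (hgZ : ∀ a, ∀ i ≤ m a, g a i ∉ Z) :
    ∃ (p : ℕ) (P : ℕ → V) (q : ℕ) (Q : ℕ → V), Wk G w B x p P ∧ Wk G w B y q Q ∧
      α + p ≤ Λ ∧ β + q ≤ Λ ∧ Apart w p P q Q ∧ (∀ i ≤ p, P i ∉ Z) ∧ (∀ j ≤ q, Q j ∉ Z) := by
  classical
  by_cases h1 : ∃ a i, i ≤ n a ∧ f a i = y
  · obtain ⟨a, i, hi, e⟩ := h1
    have hi0 : i ≠ 0 := by
      rintro rfl
      exact hxy ((hf a).zero.symm.trans e)
    have hb := hyf a i hi e
    have h2 := (hf a).shift hi
    rw [e] at h2
    refine ⟨n (!a), f (!a), n a - i, fun k => f a (i + k), hf _, h2, hfn _, ?_, ?_, ?_, ?_⟩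
    · have := hfn a; omega
    · intro k hk l hl e2
      have h3 := hff a (i + l) k (by omega) hk e2.symm
      rcases h3 with h3 | h3
      · rw [e2]; exact h3
      · omega
    · exact hfZ _
    · intro j hj; exact hfZ _ _ (by omega)
  push Not at h1
  by_cases h2 : ∃ t : ℕ, ∃ a i b j, i ≤ n a ∧ j ≤ m b ∧ f a i = g b j ∧ f a i ≠ w ∧
      t = min (α + i) (β + j)
  · have hmin : ∀ a i b j, i ≤ n a → j ≤ m b → f a i = g b j → f a i ≠ w →
        Nat.find h2 ≤ min (α + i) (β + j) := fun a i b j h3 h4 h5 h6 =>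
      Nat.find_min' h2 ⟨a, i, b, j, h3, h4, h5, h6, rfl⟩
    obtain ⟨a, i, b, j, hi, hj, e, hw, ht⟩ := Nat.find_spec h2
    rw [ht] at hmin
    have hi0 : i ≠ 0 := by
      rintro rfl
      exact hxg b j hj (e.symm.trans (hf a).zero)
    have hj0 : j ≠ 0 := by
      rintro rfl
      exact h1 a i hi (e.trans (hg b).zero)
    rcases le_total (β + j) (α + i) with hle | hle
    · -- `Q` follows `g b` and then `f a`
      refine ⟨n (!a), f (!a), j + (n a - i), splice (g b) j (f a) i, hf _,
        (hf a).splice (hg b) hi hj e, hfn _, ?_, ?_, hfZ _, ?_⟩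
      · have := hfn a; omega
      · intro k hk l hl e2
        by_contra hne
        by_cases hlj : l ≤ j
        · rw [splice_le hlj] at e2
          have h3 := hmin (!a) k b l hk (by omega) e2 hne
          have : l = j := by
            rw [min_eq_right hle] at h3
            have := h3.trans (min_le_right _ _)
            omega
          subst this
          have h4 := hff a i k hi hk (e.trans e2.symm)
          rcases h4 with h4 | h4
          · exact hw h4
          · exact hi0 h4.1
        · rw [splice_gt (by omega)] at e2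
          have h4 := hff a _ k (by omega) hk e2.symm
          rcases h4 with h4 | h4
          · exact hne (e2.trans h4)
          · omega
      · intro k hk
        by_cases hkj : k ≤ j
        · rw [splice_le hkj]; exact hgZ _ _ (by omega)
        · rw [splice_gt (by omega)]; exact hfZ _ _ (by omega)
    · refine ⟨i + (m b - j), splice (f a) i (g b) j, m (!b), g (!b),
        (hg b).splice (hf a) hj hi e.symm, hg _, ?_, hgm _, ?_, ?_, hgZ _⟩
      · have := hgm b; omega
      · intro k hk l hl e2
        by_contra hne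
        by_cases hki : k ≤ i
        · rw [splice_le hki] at e2 hne
          have h3 := hmin a k (!b) l (by omega) hl e2 hne
          have : k = i := by
            rw [min_eq_left hle] at h3
            have := h3.trans (min_le_left _ _)
            omega
          subst this
          have h4 := hgg b j l hj hl (e.symm.trans e2)
          rcases h4 with h4 | h4
          · exact hw (e.trans h4)
          · exact hj0 h4.1
        · rw [splice_gt (by omega)] at e2 hne
          have h4 := hgg b _ l (by omega) hl e2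
          rcases h4 with h4 | h4
          · exact hne h4
          · omega
      · intro k hk
        by_cases hkj : k ≤ i
        · rw [splice_le hkj]; exact hfZ _ _ (by omega)
        · rw [splice_gt (by omega)]; exact hgZ _ _ (by omega)
  · push Not at h2
    refine ⟨n true, f true, m true, g true, hf _, hg _, hfn _, hgm _, ?_, hfZ _, hgZ _⟩
    intro i hi j hj e
    by_contra hne
    exact h2 _ true i true j hi hj e hne rfl

end Pool.Agent.H30.Chung
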