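import Pool.Agent.H9.Chung.Main

/-!
# Bipartite graphs: `3 κ ≤ (d + 1) μ`

The min-max theorem of helper9 is applied to the arc lengths `1` for the arcs which leave the
colour class of `v` and `0` for the arcs which leave the other class.
-/

set_option autoImplicit false

namespace Pool.Agent.H30.Chung.Bip

open Finset SimpleGraph Pool.Agent.H9.Chung

variable {V : Type*} {G : SimpleGraph V}

/-- `0` on the colour class of `v` and `1` on the other class. -/
def sd (c : V → Bool) (v x : V) : ℕ := if c x = c v then 0 else 1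

/-- `1` for arcs which leave the colour class of `v`. -/
def lb (c : V → Bool) (v x _y : V) : ℕ := if c x = c v then 1 else 0

theorem len_lb (c : V → Bool) (v : V) (hc : ∀ x y, G.Adj x y → c x ≠ c y) {a b : V}
    (p : G.Walk a b) : 2 * len (lb c v) p + sd c v a = p.length + sd c v b := by
  induction p with
  | nil => simp
  | @cons x y z h p ih =>
    have h1 : 2 * lb c v x y + sd c v x = 1 + sd c v y := by
      have h2 := hc _ _ h
      unfold lb sd
      cases hx : c x <;> cases hy : c y <;> cases hv : c v <;> simp_all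
    rw [len_cons, Walk.length_cons]
    omega

theorem bip_main [Fintype V] {v w : V} (hvw : v ≠ w) (hadj : ¬ G.Adj v w) (c : V → Bool)
    (hc : ∀ x y, G.Adj x y → c x ≠ c y) (d μ : ℕ)
    (hμ : ∀ (q : ℕ) (P : Fin q → G.Walk v w), (∀ i, (P i).IsPath) → Disj P →
      (∀ i, (P i).length ≤ d) → q ≤ μ) :
    ∃ S : Finset V, v ∉ S ∧ w ∉ S ∧
      (∀ p : G.Walk v w, p.length ≤ d → ∃ x ∈ S, x ∈ p.support) ∧
      3 * S.card ≤ (d + 1) * μ := by
  classical
  obtain ⟨M, hM⟩ : ∃ M, M = (d + sd c v w) / 2 + 1 := ⟨_, rfl⟩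
  obtain ⟨q, P, y, π, hPp, hPd, hyv, hyw, hπv, hπw, hπ, hPl, hPe, hPs⟩ :=
    duality G hvw hadj (lb c v) M
  have hlen : ∀ p : G.Walk v w, 2 * len (lb c v) p = p.length + sd c v w := by
    intro p
    have := len_lb c v hc p
    have h0 : sd c v v = 0 := by simp [sd]
    omega
  have hq : q ≤ μ := by
    refine hμ q P hPp hPd (fun i => ?_)
    have h1 := hPl i
    have h2 := hlen (P i)
    omega
  have hyinn : ∀ x, y x ≠ 0 → x ∈ inn P := by
    intro x hx
    obtain ⟨i, hi⟩ := hPs x hx
    rw [mem_inn]
    refine ⟨i, mem_inner.2 ⟨hi, ?_, ?_⟩⟩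
    · rintro rfl; exact hx hyv
    · rintro rfl; exact hx hyw
  refine ⟨(inn P).filter (fun x => y x ≠ 0), ?_, ?_, ?_, ?_⟩
  · simp [hyv]
  · simp [hyw]
  · intro p hp
    by_contra hno
    push Not at hno
    have h2 := pot_le (lb c v) y π hπ p
    have h3 : toll y p = 0 := by
      rw [toll, List.sum_eq_zero_iff]
      intro n hn
      rw [List.mem_map] at hn
      obtain ⟨x, hx, rfl⟩ := hn
      by_contra h0
      exact hno x (by simp [h0, hyinn x h0]) hx
    have h4 := hlen p
    omega
  · have h1 : ((inn P).filter (fun x => y x ≠ 0)).card ≤ ∑ x ∈ inn P, y x := by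
      rw [Finset.card_eq_sum_ones]
      calc ∑ x ∈ (inn P).filter (fun x => y x ≠ 0), 1
          ≤ ∑ x ∈ (inn P).filter (fun x => y x ≠ 0), y x := by
            refine Finset.sum_le_sum fun x hx => ?_
            have := (Finset.mem_filter.1 hx).2
            omega
        _ ≤ ∑ x ∈ inn P, y x :=
            Finset.sum_le_sum_of_subset (Finset.filter_subset _ _)
    have h2 : ((inn P).filter (fun x => y x ≠ 0)).card ≤ (inn P).card :=
      Finset.card_le_card (Finset.filter_subset _ _)
    have h3 : ∑ x ∈ inn P, y x = ∑ i, toll y (P i) := sum_inn_toll hPd hPp y hyv hyw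
    have h4 := card_inn hvw hPd hPp
    have h5 : ∑ i, (2 * toll y (P i) + (P i).length) ≤ ∑ _i : Fin q, (d + 2) := by
      refine Finset.sum_le_sum fun i _ => ?_
      have h6 := hPe i
      have h7 := hlen (P i)
      omega
    rw [Finset.sum_add_distrib, ← Finset.mul_sum, ← h3, ← h4] at h5
    simp only [Finset.sum_const, Finset.card_univ, Fintype.card_fin, smul_eq_mul] at h5
    have h8 : 3 * ((inn P).filter (fun x => y x ≠ 0)).card ≤ (d + 1) * q := by
      have : q * (d + 2) = (d + 1) * q + q := by ring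
      omega
    exact h8.trans (Nat.mul_le_mul_left _ hq)

end Pool.Agent.H30.Chung.Bip
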