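import Pool.Agent.H30.Chung.Main

/-!
# The claims about vertices with two disjoint walks
-/

set_option autoImplicit false

namespace Pool.Agent.H30.Chung

variable {V : Type*} {G : SimpleGraph V} {w : V}

/-- At most one vertex is double. -/
theorem dbl_unique {B A : Set V} {L : ℕ} (hA : A ⊆ B) (hD : Dis G w B A L) {c c' : V}
    (h : Dbl G w B A L c) (h' : Dbl G w B A L c') : c = c' := by
  by_contra hne
  obtain ⟨hc, n, f, hf⟩ := h
  obtain ⟨hc', m, g, hg⟩ := h'
  obtain ⟨p, P, q, Q, hP, hQ, hp, hq, hap, -, -⟩ := mix (Z := ∅) (α := 0) (β := 0) (Λ := L)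
    hf.wk hg.wk (by simpa using hf.le) (by simpa using hg.le) hf.dis hg.dis hne
    (fun b => (hg.wk b).ne_of_mem (hA hc) (fun e => hne e.symm)) (by simp) (by simp) (by simp)
  exact hD c hc c' hc' p q P Q hne (by omega) (by omega) hP hQ hap

/-- The vertices adjacent to another starting vertex are not on the walks of `c`. -/
theorem not_on_pair {B A : Set V} {L : ℕ} (hA : A ⊆ B) (hD : Dis G w B A L) {c : V} (hc : c ∈ A)
    {n : Bool → ℕ} {f : Bool → ℕ → V} (hf : Pair G w B c L n f) {b : V}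
    (hb : b ∈ Nx G B (A \ {c})) : ∀ a, ∀ i ≤ n a, f a i ≠ b := by
  intro a i hi e
  obtain ⟨hbB, a', ⟨ha', hac⟩, hab⟩ := hb
  have hac : a' ≠ c := hac
  have hi0 : i ≠ 0 := by
    rintro rfl
    rw [(hf.wk a).zero] at e
    exact hbB (e ▸ hA hc)
  have h1 := (hf.wk a).shift hi
  rw [e] at h1
  have h2 := h1.cons hab hbB
  have hap : Apart w (n a - i) (fun k => f a (i + k)) (n (!a)) (f (!a)) := by
    intro k hk j hj e2
    rcases hf.dis a (i + k) j (by omega) hj e2 with h3 | h3
    · exact h3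
    · omega
  refine hD a' ha' c hc _ _ _ _ hac ?_ (hf.le _) h2 (hf.wk (!a))
    (hap.cons_left ((hf.wk (!a)).ne_of_mem (hA ha') (fun e => hac e.symm)))
  have := hf.le a
  omega

/-- No double vertex at the second level. -/
theorem claimB {B A : Set V} {l : ℕ} (hA : A ⊆ B) (hD : Dis G w B A (l + 1)) {c : V}
    (h : Dbl G w B A (l + 1) c) (b : V) :
    ¬ Dbl G w (B ∪ Nx G B (A \ {c})) (Nx G B (A \ {c})) l b := by
  rintro ⟨hb, m, g, hg'⟩
  obtain ⟨hc, n, f, hf⟩ := h
  have hnot := not_on_pair hA hD hc hf hb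
  have hg := hg'.mono (B := B) Set.subset_union_left le_rfl
  obtain ⟨hbB, a', ⟨ha', hac⟩, hab⟩ := hb
  have hac : a' ≠ c := hac
  have hcb : c ≠ b := fun e => hbB (e ▸ hA hc)
  obtain ⟨p, P, q, Q, hP, hQ, hp, hq, hap, -, -⟩ := mix (Z := ∅) (α := 0) (β := 1) (Λ := l + 1)
    hf.wk hg.wk (by simpa using hf.le) (fun a => by have := hg.le a; omega) hf.dis hg.dis hcb
    (fun b => (hg.wk b).ne_of_mem (hA hc) (fun e => hcb e.symm))
    (fun a i hi e => absurd e (hnot a i hi)) (by simp) (by simp)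
  refine hD c hc a' ha' p (q + 1) P (cons a' Q) (fun e => hac e.symm) (by omega) (by omega) hP
    (hQ.cons hab hbB) (hap.cons_right (hP.ne_of_mem (hA ha') (fun e => hac e.symm)))

/-- A double vertex at the third level is the second vertex of one of the walks of `c`. -/
theorem claimC {B A : Set V} {l : ℕ} (hA : A ⊆ B) (hD : Dis G w B A (l + 2)) {c u : V} (hc : c ∈ A)
    {n : Bool → ℕ} {f : Bool → ℕ → V} (hf : Pair G w B c (l + 2) n f)
    (h : Dbl G w (B ∪ Nx G B (A \ {c}) ∪ Nx G (B ∪ Nx G B (A \ {c})) (Nx G B (A \ {c})))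
      (Nx G (B ∪ Nx G B (A \ {c})) (Nx G B (A \ {c}))) l u) :
    ∃ a, 1 ≤ n a ∧ f a 1 = u := by
  by_contra hno
  push Not at hno
  obtain ⟨⟨hu, b, hb, hbu⟩, m, g, hg'⟩ := h
  have hnot := not_on_pair hA hD hc hf hb
  have hg := hg'.mono (B := B) (Set.subset_union_left.trans Set.subset_union_left) le_rfl
  have hg2 := hg'.mono (B := B ∪ Nx G B (A \ {c})) Set.subset_union_left le_rfl
  have huB : u ∉ B := fun e => hu (Or.inl e)
  have hub : u ≠ b := fun e => hu (Or.inr (e ▸ hb))
  have hgb : ∀ a, ∀ i ≤ m a, g a i ≠ b := fun a => (hg2.wk a).ne_of_mem (Or.inr hb) hub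
  have hb' := hb
  obtain ⟨hbB, a', ⟨ha', hac⟩, hab⟩ := hb
  have hac : a' ≠ c := hac
  have hcu : c ≠ u := fun e => huB (e ▸ hA hc)
  obtain ⟨p, P, q, Q, hP, hQ, hp, hq, hap, hPZ, hQZ⟩ := mix (Z := {b}) (α := 0) (β := 2)
    (Λ := l + 2)
    hf.wk hg.wk (by simpa using hf.le) (fun a => by have := hg.le a; omega) hf.dis hg.dis hcu
    (fun b => (hg.wk b).ne_of_mem (hA hc) (fun e => hcu e.symm))
    (fun a i hi e => by
      rcases i with _ | i
      · exact absurd ((hf.wk a).zero.symm.trans e) hcu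
      · rcases i with _ | i
        · exact absurd e (hno a hi)
        · omega) (fun a i hi => hnot a i hi) (fun a i hi => hgb a i hi)
  refine hD c hc a' ha' p (q + 1 + 1) P (cons a' (cons b Q)) (fun e => hac e.symm) (by omega)
    (by omega) hP ((hQ.cons hbu huB).cons hab hbB)
    ((hap.cons_right (fun i hi => hPZ i hi)).cons_right
      (hP.ne_of_mem (hA ha') (fun e => hac e.symm)))

/-- The data of a double vertex `u` at the third level. -/
structure Third (G : SimpleGraph V) (w : V) (B A : Set V) (l : ℕ) (c u a₀ b₀ : V)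
    (n : Bool → ℕ) (f : Bool → ℕ → V) : Prop where
  hA : A ⊆ B
  hD : Dis G w B A (l + 2)
  hc : c ∈ A
  huB : u ∉ B
  hcu : G.Adj c u
  ha₀ : a₀ ∈ A
  hac : a₀ ≠ c
  hab : G.Adj a₀ b₀
  hbB : b₀ ∉ B
  hbu : G.Adj b₀ u
  hf : Pair G w B u l n f
  hf2 : ∀ a, ∀ i ≤ n a, f a i ∉ Nx G B (A \ {c})

/-- No double vertex at the second level after deleting `u`. -/
theorem claimD {B A : Set V} {l : ℕ} {c u a₀ b₀ : V} {n : Bool → ℕ} {f : Bool → ℕ → V}
    (T : Third G w B A l c u a₀ b₀ n f) (b : V) :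
    ¬ Dbl G w (insert u B ∪ Nx G (insert u B) A) (Nx G (insert u B) A) (l + 1) b := by
  obtain ⟨hA, hD, hc, huB, hcu, ha₀, hac, hab, hbB, hbu, hf, hf2⟩ := T
  rintro ⟨⟨hb, a', ha', hab'⟩, m, g, hg'⟩
  have hbB' : b ∉ B := fun e => hb (Or.inr e)
  have hub : u ≠ b := fun e => hb (Or.inl e.symm)
  have hg := hg'.mono (B := B) ((Set.subset_insert _ _).trans Set.subset_union_left) le_rfl
  have hgu : ∀ a, ∀ i ≤ m a, g a i ≠ u := fun a =>
    (hg'.wk a).ne_of_mem (Or.inl (Or.inl rfl)) (fun e => hub e.symm)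
  by_cases hpar : ∃ a' ∈ A, a' ≠ c ∧ G.Adj a' b
  · obtain ⟨a', ha', hac', hab'⟩ := hpar
    obtain ⟨p, P, q, Q, hP, hQ, hp, hq, hap, -, -⟩ := mix (Z := ∅) (α := 1) (β := 1)
      (Λ := l + 2)
      hf.wk hg.wk (fun a => by have := hf.le a; omega) (fun a => by have := hg.le a; omega)
      hf.dis hg.dis hub hgu (fun a i hi e => by omega) (by simp) (by simp)
    refine hD c hc a' ha' (p + 1) (q + 1) (cons c P) (cons a' Q) (fun e => hac' e.symm) (by omega)
      (by omega) (hP.cons hcu huB) (hQ.cons hab' hbB') ?_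
    refine (hap.cons_left (hQ.ne_of_mem (hA hc) (fun e => hbB' (e ▸ hA hc)))).cons_right ?_
    rintro (_ | j) hj e
    · exact hac' e.symm
    · exact hP.ne_of_mem (hA ha') (fun e => huB (e ▸ hA ha')) j (by omega) e
  · push Not at hpar
    have hac'' : a' = c := by
      by_contra hne
      exact hpar a' ha' hne hab'
    subst hac''
    have hb0 : b ≠ b₀ := by
      rintro rfl
      exact hpar a₀ ha₀ hac hab
    have hub₀ : u ≠ b₀ := by
      rintro rfl
      exact G.loopless.irrefl _ hbu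
    have hgb : ∀ a, ∀ i ≤ m a, g a i ≠ b₀ := fun a =>
      (hg'.wk a).ne_of_mem (Or.inr ⟨by
        rintro (e | e)
        · exact hub₀ e.symm
        · exact hbB e, a₀, ha₀, hab⟩) hb0
    have hfb : ∀ a, ∀ i ≤ n a, f a i ≠ b₀ := fun a i hi e =>
      hf2 a i hi (e ▸ ⟨hbB, a₀, ⟨ha₀, hac⟩, hab⟩)
    obtain ⟨p, P, q, Q, hP, hQ, hp, hq, hap, hPZ, hQZ⟩ := mix (Z := {b₀}) (α := 2) (β := 1)
      (Λ := l + 2)
      hf.wk hg.wk (fun a => by have := hf.le a; omega) (fun a => by have := hg.le a; omega)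
      hf.dis hg.dis hub hgu (fun a i hi e => by omega) (fun a i hi => hfb a i hi)
      (fun a i hi => hgb a i hi)
    refine hD a₀ ha₀ a' hc (p + 1 + 1) (q + 1) (cons a₀ (cons b₀ P)) (cons a' Q) hac
      (by omega) (by omega) ((hP.cons hbu huB).cons hab hbB) (hQ.cons hab' hbB') ?_
    refine ((hap.cons_left (fun j hj => hQZ j hj)).cons_left
      (hQ.ne_of_mem (hA ha₀) (fun e => hbB' (e ▸ hA ha₀)))).cons_right ?_
    rintro (_ | _ | j) hj e
    · exact hac e
    · exact hbB (by rw [show b₀ = a' from e]; exact hA hc)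
    · exact hP.ne_of_mem (hA hc) (fun e => huB (e ▸ hA hc)) j (by omega) e

/-- No double vertex at the third level after deleting `u`. -/
theorem claimE {B A : Set V} {l : ℕ} {c u a₀ b₀ : V} {n : Bool → ℕ} {f : Bool → ℕ → V}
    (T : Third G w B A l c u a₀ b₀ n f) (b : V) :
    ¬ Dbl G w (insert u B ∪ Nx G (insert u B) A ∪
        Nx G (insert u B ∪ Nx G (insert u B) A) (Nx G (insert u B) A))
      (Nx G (insert u B ∪ Nx G (insert u B) A) (Nx G (insert u B) A)) l b := by
  obtain ⟨hA, hD, hc, huB, hcu, ha₀, hac, hab, hbB, hbu, hf, hf2⟩ := T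
  rintro ⟨⟨hb, b', hb', hbb'⟩, m, g, hg'⟩
  have hbB' : b ∉ B := fun e => hb (Or.inl (Or.inr e))
  have hub : u ≠ b := fun e => hb (Or.inl (Or.inl e.symm))
  have hg := hg'.mono (B := B) ((Set.subset_insert _ _).trans
    (Set.subset_union_left.trans Set.subset_union_left)) le_rfl
  have hgu : ∀ a, ∀ i ≤ m a, g a i ≠ u := fun a =>
    (hg'.wk a).ne_of_mem (Or.inl (Or.inl (Or.inl rfl))) (fun e => hub e.symm)
  have hg2 : ∀ x ∈ Nx G (insert u B) A, ∀ a, ∀ i ≤ m a, g a i ≠ x := fun x hx a =>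
    (hg'.wk a).ne_of_mem (Or.inl (Or.inr hx)) (fun e => hb (Or.inr (e ▸ hx)))
  have hb'B : b' ∉ B := fun e => hb'.1 (Or.inr e)
  have hb'u : b' ≠ u := fun e => hb'.1 (Or.inl e)
  by_cases hpar : ∃ a' ∈ A, a' ≠ c ∧ G.Adj a' b'
  · obtain ⟨a', ha', hac', hab'⟩ := hpar
    have hfb : ∀ a, ∀ i ≤ n a, f a i ≠ b' := fun a i hi e =>
      hf2 a i hi (e ▸ ⟨hb'B, a', ⟨ha', hac'⟩, hab'⟩)
    obtain ⟨p, P, q, Q, hP, hQ, hp, hq, hap, hPZ, hQZ⟩ := mix (Z := {b'}) (α := 1) (β := 2)
      (Λ := l + 2)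
      hf.wk hg.wk (fun a => by have := hf.le a; omega) (fun a => by have := hg.le a; omega)
      hf.dis hg.dis hub hgu (fun a i hi e => by
        rcases i with _ | i
        · exact absurd ((hf.wk a).zero.symm.trans e) hub
        · omega) (fun a i hi => hfb a i hi) (fun a i hi => hg2 b' hb' a i hi)
    refine hD c hc a' ha' (p + 1) (q + 1 + 1) (cons c P) (cons a' (cons b' Q))
      (fun e => hac' e.symm) (by omega)
      (by omega) (hP.cons hcu huB) ((hQ.cons hbb' hbB').cons hab' hb'B) ?_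
    have h1 := hap.cons_left (hQ.ne_of_mem (hA hc) (fun e => hbB' (e ▸ hA hc)))
    have h2 : Apart w (p + 1) (cons c P) (q + 1) (cons b' Q) := by
      refine h1.cons_right ?_
      rintro (_ | j) hj e
      · exact hb'B (by rw [← show c = b' from e]; exact hA hc)
      · exact hPZ j (by omega) e
    refine h2.cons_right ?_
    rintro (_ | j) hj e
    · exact hac' e.symm
    · exact hP.ne_of_mem (hA ha') (fun e => huB (e ▸ hA ha')) j (by omega) e
  · push Not at hpar
    obtain ⟨-, a', ha', hab'⟩ := hb'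
    have hac'' : a' = c := by
      by_contra hne
      exact hpar a' ha' hne hab'
    subst hac''
    have hb0 : b' ≠ b₀ := by
      rintro rfl
      exact hpar a₀ ha₀ hac hab
    have hub₀ : u ≠ b₀ := by
      rintro rfl
      exact G.loopless.irrefl _ hbu
    have hfb : ∀ a, ∀ i ≤ n a, f a i ≠ b₀ := fun a i hi e =>
      hf2 a i hi (e ▸ ⟨hbB, a₀, ⟨ha₀, hac⟩, hab⟩)
    have hgb : ∀ a, ∀ i ≤ m a, g a i ≠ b₀ := hg2 b₀ ⟨by
        rintro (e | e)
        · exact hub₀ e.symm
        · exact hbB e, a₀, ha₀, hab⟩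
    have hb'N : b' ∈ Nx G (insert u B) A := ⟨by
        rintro (e | e)
        · exact hb'u e
        · exact hb'B e, a', ha', hab'⟩
    -- `b'` is not on the walks of `u`
    have hfb' : ∀ a, ∀ i ≤ n a, f a i ≠ b' := by
      intro a i hi e
      have hi0 : i ≠ 0 := by
        rintro rfl
        exact hb'u (e.symm.trans (hf.wk a).zero)
      have h1 := (hf.wk a).shift hi
      rw [e] at h1
      have h2 := h1.cons hab' hb'B
      have hap : Apart w (n a - i) (fun k => f a (i + k)) (n (!a)) (f (!a)) := by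
        intro k hk j hj e2
        rcases hf.dis a (i + k) j (by omega) hj e2 with h3 | h3
        · exact h3
        · omega
      have hl1 := hf.le a
      have hl2 := hf.le (!a)
      refine hD a' hc a₀ ha₀ (n a - i + 1) (n (!a) + 1 + 1)
        (cons a' (fun k => f a (i + k))) (cons a₀ (cons b₀ (f (!a)))) (fun e => hac e.symm)
        (by omega) (by omega) h2 (((hf.wk (!a)).cons hbu huB).cons hab hbB) ?_
      have h3 := hap.cons_left ((hf.wk (!a)).ne_of_mem (hA hc) (fun e => huB (e ▸ hA hc)))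
      have h4 : Apart w (n a - i + 1) (cons a' (fun k => f a (i + k))) (n (!a) + 1)
          (cons b₀ (f (!a))) := by
        refine h3.cons_right ?_
        rintro (_ | j) hj e
        · exact hbB (by rw [← show a' = b₀ from e]; exact hA hc)
        · exact hfb a (i + j) (by omega) e
      refine h4.cons_right ?_
      rintro (_ | j) hj e
      · exact hac e.symm
      · exact (hf.wk a).ne_of_mem (hA ha₀) (fun e => huB (e ▸ hA ha₀)) (i + j) (by omega) e
    obtain ⟨p, P, q, Q, hP, hQ, hp, hq, hap, hPZ, hQZ⟩ := mix (Z := {b₀, b'}) (α := 2) (β := 2)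
      (Λ := l + 2)
      hf.wk hg.wk (fun a => by have := hf.le a; omega) (fun a => by have := hg.le a; omega)
      hf.dis hg.dis hub hgu (fun a i hi e => by omega)
      (fun a i hi => by
        rintro (e | e)
        · exact hfb a i hi e
        · exact hfb' a i hi e)
      (fun a i hi => by
        rintro (e | e)
        · exact hgb a i hi e
        · exact hg2 b' hb'N a i hi e)
    refine hD a₀ ha₀ a' hc (p + 1 + 1) (q + 1 + 1) (cons a₀ (cons b₀ P)) (cons a' (cons b' Q)) hac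
      (by omega) (by omega) ((hP.cons hbu huB).cons hab hbB) ((hQ.cons hbb' hbB').cons hab' hb'B) ?_
    have h1 : Apart w (p + 1) (cons b₀ P) q Q := hap.cons_left
      (fun j hj e => hQZ j hj (Or.inl e))
    have h2 : Apart w (p + 1) (cons b₀ P) (q + 1) (cons b' Q) := by
      refine h1.cons_right ?_
      rintro (_ | j) hj e
      · exact hb0 e.symm
      · exact hPZ j (by omega) (Or.inr e)
    have h3 : Apart w (p + 1 + 1) (cons a₀ (cons b₀ P)) (q + 1) (cons b' Q) := by
      refine h2.cons_left ?_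
      rintro (_ | j) hj e
      · exact hb'B (by rw [show b' = a₀ from e]; exact hA ha₀)
      · exact hQ.ne_of_mem (hA ha₀) (fun e => hbB' (e ▸ hA ha₀)) j (by omega) e
    refine h3.cons_right ?_
    rintro (_ | _ | j) hj e
    · exact hac e
    · exact hbB (by rw [show b₀ = a' from e]; exact hA hc)
    · exact hP.ne_of_mem (hA hc) (fun e => huB (e ▸ hA hc)) j (by omega) e

end Pool.Agent.H30.Chung
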