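import Mathlib

/-!
# The lower bound in Chung's problem

For every `d ≥ 2` a finite graph with two non-adjacent vertices `v, w` such that any two paths of
length at most `d` from `v` to `w` share an inner vertex, some such path exists, and every set of
inner vertices meeting all of them has at least `(d - 1) / 3` elements.
-/

set_option autoImplicit false

namespace Pool.Agent.H30.Chung.Lower

open SimpleGraph

/-- Vertices: the source, the sink, `L` hubs, and `k` copies of each of `2 L` slow positions. -/
inductive Vtx (L k : ℕ) : Type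
  | src : Vtx L k
  | snk : Vtx L k
  | hub : Fin L → Vtx L k
  | slow : Fin (2 * L) → Fin k → Vtx L k
  deriving DecidableEq, Fintype

variable {L k : ℕ}

/-- entry position -/
def pin : Vtx L k → ℕ
  | .src => 0
  | .snk => 2 * L + 1
  | .hub i => 2 * i.val + 1
  | .slow t _ => t.val + 1

/-- exit position -/
def pout : Vtx L k → ℕ
  | .src => 0
  | .snk => 2 * L + 1
  | .hub i => 2 * i.val + 2
  | .slow t _ => t.val + 1

/-- being a hub -/
def isHub : Vtx L k → Bool
  | .hub _ => true
  | _ => false

/-- The graph. -/
def gr (L k : ℕ) : SimpleGraph (Vtx L k) where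
  Adj x y := pin y = pout x + 1 ∨ pin x = pout y + 1
  symm := ⟨fun x y h => h.symm⟩
  loopless := ⟨by
    intro x h
    cases x <;> simp [pin, pout] at h <;> omega⟩

lemma pout_le (x y : Vtx L k) (h : (gr L k).Adj x y) :
    pout y ≤ pout x + 1 + (if isHub y then 1 else 0) := by
  rcases h with h | h
  · cases y <;> simp [pin, pout, isHub] at h ⊢ <;> omega
  · have h1 : pin x ≤ pout x := by cases x <;> simp [pin, pout]
    split_ifs <;> omega

lemma pout_walk {x y : Vtx L k} (p : (gr L k).Walk x y) :
    pout y ≤ pout x + p.length + p.support.tail.countP isHub := by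
  induction p with
  | nil => simp
  | @cons a b c h p ih =>
    have h1 := pout_le a b h
    have h2 : (Walk.cons h p).support.tail = p.support := by simp
    rw [h2, Walk.length_cons]
    have h3 : p.support.countP isHub
        = p.support.tail.countP isHub + (if isHub b then 1 else 0) := by
      rw [Walk.support_eq_cons p, List.countP_cons]
      simp
    rw [h3]
    split_ifs at h1 ⊢ <;> omega

/-- The hubs of a list of vertices. -/
def hubs (l : List (Vtx L k)) : Finset (Fin L) :=
  Finset.univ.filter fun i => Vtx.hub i ∈ l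

lemma countP_le_hubs (l : List (Vtx L k)) (hl : l.Nodup) :
    l.countP isHub ≤ (hubs l).card := by
  classical
  have h1 : l.countP isHub = (l.filter isHub).length := List.countP_eq_length_filter
  rw [h1]
  have h2 : (l.filter isHub).Nodup := hl.filter _
  rw [← List.toFinset_card_of_nodup h2]
  have h3 : (l.filter isHub).toFinset ⊆ (hubs l).image Vtx.hub := by
    intro x hx
    rw [List.mem_toFinset, List.mem_filter] at hx
    obtain ⟨hx1, hx2⟩ := hx
    cases x with
    | hub i =>
      rw [Finset.mem_image]
      exact ⟨i, by simp [hubs, hx1], rfl⟩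
    | src => simp [isHub] at hx2
    | snk => simp [isHub] at hx2
    | slow t c => simp [isHub] at hx2
  exact (Finset.card_le_card h3).trans Finset.card_image_le

lemma path_hubs (p : (gr L k).Walk Vtx.src Vtx.snk) (hp : p.IsPath) :
    2 * L + 1 ≤ p.length + (hubs p.support).card := by
  have h1 := pout_walk p
  have h2 : p.support.tail.countP isHub ≤ (hubs p.support).card := by
    refine le_trans (List.Sublist.countP_le (List.tail_sublist _)) ?_
    exact countP_le_hubs _ hp.support_nodup
  simp only [pout] at h1
  omega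

/-- Walks avoiding a set. -/
lemma walk_step (S : Finset (Vtx L k)) (hS : S.card < k) (hsrc : Vtx.src ∉ S) (j : ℕ) (hj : j ≤ L) :
    ∃ x : Vtx L k, pout x = 2 * j ∧ ∃ p : (gr L k).Walk Vtx.src x,
      (∀ y ∈ p.support, y ∉ S) ∧
      p.length ≤ j + (Finset.univ.filter fun i : Fin L => i.val < j ∧ Vtx.hub i ∈ S).card := by
  classical
  induction j with
  | zero =>
    refine ⟨Vtx.src, rfl, Walk.nil, ?_, by simp⟩
    intro y hy
    simp at hy
    rw [hy]
    exact hsrc
  | succ j ih =>
    obtain ⟨x, hx, p, hp, hlen⟩ := ih (by omega)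
    set i : Fin L := ⟨j, by omega⟩ with hi
    -- a free copy of each slow position
    have hfree : ∀ t : Fin (2 * L), ∃ c : Fin k, Vtx.slow t c ∉ S := by
      intro t
      by_contra hcon
      push Not at hcon
      have h1 : (Finset.univ.image fun c : Fin k => Vtx.slow t c) ⊆ S := by
        intro y hy
        rw [Finset.mem_image] at hy
        obtain ⟨c, -, rfl⟩ := hy
        exact hcon c
      have h2 := Finset.card_le_card h1
      rw [Finset.card_image_of_injective _ (by
        intro a b hab
        simpa using hab)] at h2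
      simp at h2
      omega
    by_cases hiS : Vtx.hub i ∈ S
    · obtain ⟨c1, hc1⟩ := hfree ⟨2 * j, by omega⟩
      obtain ⟨c2, hc2⟩ := hfree ⟨2 * j + 1, by omega⟩
      have ha1 : (gr L k).Adj x (Vtx.slow ⟨2 * j, by omega⟩ c1) := by
        left
        simp [pin, hx]
      have ha2 : (gr L k).Adj (Vtx.slow ⟨2 * j, by omega⟩ c1 : Vtx L k)
          (Vtx.slow ⟨2 * j + 1, by omega⟩ c2) := by
        left
        simp [pin, pout]
      refine ⟨Vtx.slow ⟨2 * j + 1, by omega⟩ c2, by simp [pout]; ring,
        (p.concat ha1).concat ha2, ?_, ?_⟩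
      · intro y hy
        rw [Walk.support_concat, Walk.support_concat] at hy
        simp only [List.concat_eq_append, List.mem_append, List.mem_singleton] at hy
        rcases hy with (hy | hy) | hy
        · exact hp y hy
        · rw [hy]; exact hc1
        · rw [hy]; exact hc2
      · rw [Walk.length_concat, Walk.length_concat]
        have h3 : (Finset.univ.filter fun i' : Fin L => i'.val < j + 1 ∧ Vtx.hub i' ∈ S)
            = insert i (Finset.univ.filter fun i' : Fin L => i'.val < j ∧ Vtx.hub i' ∈ S) := by
          ext i'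
          simp only [Finset.mem_filter, Finset.mem_univ, true_and, Finset.mem_insert]
          constructor
          · rintro ⟨h1, h2⟩
            by_cases h : i'.val = j
            · left
              exact Fin.ext h
            · right
              exact ⟨by omega, h2⟩
          · rintro (h | ⟨h1, h2⟩)
            · rw [h]
              exact ⟨by simp [hi], hiS⟩
            · exact ⟨by omega, h2⟩
        rw [h3, Finset.card_insert_of_notMem (by simp [hi])]
        omega
    · have ha : (gr L k).Adj x (Vtx.hub i) := by
        left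
        simp [pin, hx, hi]
      refine ⟨Vtx.hub i, by simp [pout, hi]; ring, p.concat ha, ?_, ?_⟩
      · intro y hy
        rw [Walk.support_concat] at hy
        simp only [List.concat_eq_append, List.mem_append, List.mem_singleton] at hy
        rcases hy with hy | hy
        · exact hp y hy
        · rw [hy]; exact hiS
      · rw [Walk.length_concat]
        have h3 : (Finset.univ.filter fun i' : Fin L => i'.val < j ∧ Vtx.hub i' ∈ S).card
            ≤ (Finset.univ.filter fun i' : Fin L => i'.val < j + 1 ∧ Vtx.hub i' ∈ S).card := by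
          apply Finset.card_le_card
          intro i' hi'
          simp only [Finset.mem_filter, Finset.mem_univ, true_and] at hi' ⊢
          exact ⟨by omega, hi'.2⟩
        omega

lemma exists_path (S : Finset (Vtx L k)) (hS : S.card < k) (hsrc : Vtx.src ∉ S)
    (hsnk : Vtx.snk ∉ S) :
    ∃ p : (gr L k).Walk Vtx.src Vtx.snk, p.IsPath ∧ (∀ y ∈ p.support, y ∉ S) ∧
      p.length ≤ L + S.card + 1 := by
  classical
  obtain ⟨x, hx, p, hp, hlen⟩ := walk_step S hS hsrc L le_rfl
  have ha : (gr L k).Adj x Vtx.snk := by
    left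
    simp [pin, hx]
  refine ⟨(p.concat ha).bypass, Walk.bypass_isPath _, ?_, ?_⟩
  · intro y hy
    have hy' := Walk.support_bypass_subset _ hy
    rw [Walk.support_concat] at hy'
    simp only [List.concat_eq_append, List.mem_append, List.mem_singleton] at hy'
    rcases hy' with hy' | hy'
    · exact hp y hy'
    · rw [hy']; exact hsnk
  · refine (Walk.length_bypass_le _).trans ?_
    rw [Walk.length_concat]
    have h3 : (Finset.univ.filter fun i' : Fin L => i'.val < L ∧ Vtx.hub i' ∈ S).card ≤ S.card := by
      have h4 : ((Finset.univ.filter fun i' : Fin L => i'.val < L ∧ Vtx.hub i' ∈ S).image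
          (Vtx.hub : Fin L → Vtx L k)) ⊆ S := by
        intro y hy
        rw [Finset.mem_image] at hy
        obtain ⟨i', hi', rfl⟩ := hy
        simp only [Finset.mem_filter, Finset.mem_univ, true_and] at hi'
        exact hi'.2
      have h5 := Finset.card_le_card h4
      rwa [Finset.card_image_of_injective _ (by
        intro a b hab
        simpa using hab)] at h5
    omega

/-- The abstract form of the lower bound. -/
theorem lower_abstract (d : ℕ) (hd : 2 ≤ d) :
    ∃ (V : Type) (_ : Fintype V) (G : SimpleGraph V) (v w : V),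
      v ≠ w ∧ ¬ G.Adj v w ∧
      (∃ p : G.Walk v w, p.IsPath ∧ p.length ≤ d) ∧
      (∀ p q : G.Walk v w, p.IsPath → q.IsPath → p.length ≤ d → q.length ≤ d →
        ∃ x, x ∈ p.support ∧ x ∈ q.support ∧ x ≠ v ∧ x ≠ w) ∧
      ∀ S : Finset V, v ∉ S → w ∉ S →
        (∀ p : G.Walk v w, p.IsPath → p.length ≤ d → ∃ x ∈ S, x ∈ p.support) →
        d ≤ 3 * S.card + 1 := by
  classical
  set L := (2 * d + 1) / 3 with hL
  refine ⟨Vtx L d, inferInstance, gr L d, Vtx.src, Vtx.snk, by simp, ?_, ?_, ?_, ?_⟩
  · rintro (h | h)
    · simp [pin, pout] at h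
      omega
    · simp [pin, pout] at h
  · obtain ⟨p, hp, -, hlen⟩ := exists_path (L := L) (k := d) ∅ (by simp; omega) (by simp) (by simp)
    refine ⟨p, hp, hlen.trans ?_⟩
    simp
    omega
  · intro p q hp hq hlp hlq
    by_contra hcon
    push Not at hcon
    have h1 := path_hubs p hp
    have h2 := path_hubs q hq
    have h3 : Disjoint (hubs p.support) (hubs q.support) := by
      rw [Finset.disjoint_left]
      intro i hi hi'
      simp only [hubs, Finset.mem_filter, Finset.mem_univ, true_and] at hi hi'
      have := hcon (Vtx.hub i) hi hi' (by simp)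
      simp at this
    have h4 : (hubs p.support).card + (hubs q.support).card ≤ L := by
      rw [← Finset.card_union_of_disjoint h3]
      simpa using Finset.card_le_univ (hubs p.support ∪ hubs q.support)
    omega
  · intro S hv hw hS
    by_contra hcon
    push Not at hcon
    obtain ⟨p, hp, hpS, hlen⟩ := exists_path (L := L) (k := d) S (by omega) hv hw
    obtain ⟨x, hxS, hxp⟩ := hS p hp (by omega)
    exact hpS x hxp hxS

/-- **Lower bound** in the form of the frozen statement. -/
theorem lower (d : ℕ) (hd : 2 ≤ d) :
    ∃ (n : ℕ) (G : SimpleGraph (Fin n)) (v w : Fin n) (m : ℕ),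
      v ≠ w ∧ ¬ G.Adj v w ∧ 1 ≤ m ∧
      (∃ f : Fin m → G.Walk v w,
        (∀ i, (f i).IsPath ∧ (f i).length ≤ d) ∧
        ∀ i j, i ≠ j → ∀ x, x ∈ (f i).support → x ∈ (f j).support → x = v ∨ x = w) ∧
      (¬ ∃ f : Fin (m + 1) → G.Walk v w,
        (∀ i, (f i).IsPath ∧ (f i).length ≤ d) ∧
        ∀ i j, i ≠ j → ∀ x, x ∈ (f i).support → x ∈ (f j).support → x = v ∨ x = w) ∧
      ∀ S : Finset (Fin n), v ∉ S → w ∉ S →
        (∀ p : G.Walk v w, p.IsPath → p.length ≤ d → ∃ x ∈ S, x ∈ p.support) →
        ((d : ℝ) / 3 - 1) * (m : ℝ) ≤ (S.card : ℝ) := by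
  classical
  obtain ⟨V, hV, G, v, w, hvw, hnadj, ⟨p0, hp0, hl0⟩, hmeet, hcut⟩ := lower_abstract d hd
  let e : V ≃ Fin (Fintype.card V) := Fintype.equivFin V
  let G' : SimpleGraph (Fin (Fintype.card V)) := G.map e.toEmbedding
  let φ : G ≃g G' := SimpleGraph.Iso.map e G
  have hφ : ∀ x, φ x = e x := fun x => rfl
  refine ⟨Fintype.card V, G', φ v, φ w, 1, ?_, ?_, le_rfl, ?_, ?_, ?_⟩
  · exact fun h => hvw (φ.injective h)
  · rw [φ.map_adj_iff]
    exact hnadj
  · refine ⟨fun _ => p0.map φ.toHom, ?_, ?_⟩
    · intro i
      refine ⟨Walk.map_isPath_of_injective φ.injective hp0, ?_⟩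
      rw [Walk.length_map]
      exact hl0
    · intro i j hij
      exact absurd (Subsingleton.elim i j) hij
  · rintro ⟨f, hf, hdisj⟩
    -- pull back the two walks
    have key : ∀ p : G'.Walk (φ v) (φ w), p.IsPath → ∃ q : G.Walk v w, q.IsPath ∧
        q.length = p.length ∧ ∀ x, x ∈ q.support → φ x ∈ p.support := by
      intro p hp
      have hq : (p.map φ.symm.toHom).IsPath := Walk.map_isPath_of_injective φ.symm.injective hp
      refine ⟨(p.map φ.symm.toHom).copy (φ.symm_apply_apply v) (φ.symm_apply_apply w), ?_, ?_, ?_⟩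
      · rwa [Walk.isPath_copy]
      · rw [Walk.length_copy, Walk.length_map]
      · intro x hx
        rw [Walk.support_copy, Walk.support_map, List.mem_map] at hx
        obtain ⟨y, hy, rfl⟩ := hx
        have : φ (φ.symm y) = y := φ.apply_symm_apply y
        change φ (φ.symm y) ∈ p.support
        rwa [this]
    obtain ⟨q0, hq0, hlq0, hs0⟩ := key (f 0) (hf 0).1
    obtain ⟨q1, hq1, hlq1, hs1⟩ := key (f 1) (hf 1).1
    obtain ⟨x, hx0, hx1, hxv, hxw⟩ := hmeet q0 q1 hq0 hq1 (by rw [hlq0]; exact (hf 0).2)
      (by rw [hlq1]; exact (hf 1).2)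
    rcases hdisj 0 1 (by decide) (φ x) (hs0 x hx0) (hs1 x hx1) with h | h
    · exact hxv (φ.injective h)
    · exact hxw (φ.injective h)
  · intro S hvS hwS hS
    have h1 := hcut (S.map φ.symm.toEquiv.toEmbedding) ?_ ?_ ?_
    · rw [Finset.card_map] at h1
      have h2 : (d : ℝ) ≤ 3 * (S.card : ℝ) + 1 := by exact_mod_cast h1
      push_cast
      linarith
    · intro h
      rw [Finset.mem_map] at h
      obtain ⟨y, hy, hyv⟩ := h
      apply hvS
      have : y = φ v := by
        rw [← hyv]
        exact (φ.apply_symm_apply y).symm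
      rwa [← this]
    · intro h
      rw [Finset.mem_map] at h
      obtain ⟨y, hy, hyv⟩ := h
      apply hwS
      have : y = φ w := by
        rw [← hyv]
        exact (φ.apply_symm_apply y).symm
      rwa [← this]
    · intro p hp hlen
      obtain ⟨x, hxS, hxp⟩ := hS (p.map φ.toHom) (Walk.map_isPath_of_injective φ.injective hp)
        (by rw [Walk.length_map]; exact hlen)
      rw [Walk.support_map, List.mem_map] at hxp
      obtain ⟨y, hy, hyx⟩ := hxp
      refine ⟨y, ?_, hy⟩
      rw [Finset.mem_map]
      refine ⟨x, hxS, ?_⟩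
      rw [← hyx]
      exact φ.symm_apply_apply y

end Pool.Agent.H30.Chung.Lower
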