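import Pool.Agent.H30.Chung.Basic

/-!
# The case of one disjoint path: the cut has at most `(d + 1) / 3` vertices

The state `(B, A, L)`: walks of length at most `L` from a vertex of `A` to `w` which avoid `B`
after their first vertex.
-/

set_option autoImplicit false

namespace Pool.Agent.H30.Chung

variable {V : Type*} (G : SimpleGraph V) (w : V)

/-- No two walks of the state from different vertices share only `w`. -/
def Dis (B A : Set V) (L : ℕ) : Prop :=
  ∀ a ∈ A, ∀ b ∈ A, ∀ (n m : ℕ) (f g : ℕ → V), a ≠ b → n ≤ L → m ≤ L →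
    Wk G w B a n f → Wk G w B b m g → ¬ Apart w n f m g

/-- There are two walks from `c` sharing only `c` and `w`. -/
def Dbl (B A : Set V) (L : ℕ) (c : V) : Prop :=
  c ∈ A ∧ ∃ n f, Pair G w B c L n f

/-- The set `S` meets all walks of the state. -/
def Hit (B A : Set V) (L : ℕ) (S : Finset V) : Prop :=
  ∀ a ∈ A, ∀ (n : ℕ) (f : ℕ → V), n ≤ L → Wk G w B a n f → ∃ i ≤ n, f i ∈ S

/-- The starting vertices of the next state. -/
def Nx (B A : Set V) : Set V := {x | x ∉ B ∧ ∃ a ∈ A, G.Adj a x}

variable {G w}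

theorem Dis.mono {B B' A A' : Set V} {L L' : ℕ} (h : Dis G w B A L) (hB : B ⊆ B') (hA : A' ⊆ A)
    (hL : L' ≤ L) : Dis G w B' A' L' :=
  fun a ha b hb n m f g hab hn hm hf hg =>
    h a (hA ha) b (hA hb) n m f g hab (hn.trans hL) (hm.trans hL) (hf.mono hB) (hg.mono hB)

theorem Pair.mono {B B' : Set V} {x : V} {L L' : ℕ} {n : Bool → ℕ} {f : Bool → ℕ → V}
    (h : Pair G w B' x L' n f) (hB : B ⊆ B') (hL : L' ≤ L) : Pair G w B x L n f :=
  ⟨fun a => (h.wk a).mono hB, fun a => (h.le a).trans hL, h.dis⟩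

/-- A vertex of `B` different from the starting point is not on the walk. -/
theorem Wk.ne_of_mem {B : Set V} {x a : V} {n : ℕ} {f : ℕ → V} (h : Wk G w B x n f) (ha : a ∈ B)
    (hx : x ≠ a) : ∀ i ≤ n, f i ≠ a := by
  intro i hi e
  rcases Nat.eq_zero_or_pos i with rfl | h0
  · exact hx (h.zero.symm.trans e)
  · exact h.avoid i h0 hi (e ▸ ha)

theorem Wk.pos {B : Set V} {x : V} {n : ℕ} {f : ℕ → V} (h : Wk G w B x n f) (hx : x ≠ w) :
    0 < n := by
  rcases Nat.eq_zero_or_pos n with rfl | h0
  · exact absurd (h.zero.symm.trans h.last) hx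
  · exact h0

/-- Advancing to the next state. -/
theorem adv {B A : Set V} {L : ℕ} (hA : A ⊆ B) (hw : w ∉ B) (hD : Dis G w B A (L + 1))
    (h2 : ∀ c, ¬ Dbl G w B A (L + 1) c) :
    w ∉ Nx G B A ∧ Dis G w (B ∪ Nx G B A) (Nx G B A) L := by
  constructor
  · rintro ⟨-, a, ha, haw⟩
    have hne : a ≠ w := fun e => hw (e ▸ hA ha)
    let f : ℕ → V := fun k => if k = 0 then a else w
    have hwk : Wk G w B a 1 f := by
      refine ⟨rfl, rfl, ?_, ?_⟩
      · intro i hi
        obtain rfl : i = 0 := by omega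
        simpa [f] using haw
      · intro i hi h1
        obtain rfl : i = 1 := by omega
        simpa [f] using hw
    refine h2 a ⟨ha, fun _ => 1, fun _ => f, fun _ => hwk, fun _ => by simp, ?_⟩
    intro _ i j hi hj e
    by_cases h0 : i = 0
    · subst h0
      by_cases h1 : j = 0
      · exact Or.inr ⟨rfl, h1⟩
      · simp [f, h1] at e; exact absurd e hne
    · left; simp [f, h0]
  · intro x hx y hy n m f g hxy hn hm hf hg hap
    obtain ⟨hxB, a, ha, hax⟩ := hx
    obtain ⟨hyB, b, hb, hby⟩ := hy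
    have hf' := hf.mono (B := B) Set.subset_union_left
    have hg' := hg.mono (B := B) Set.subset_union_left
    have hfa : ∀ c ∈ B, ∀ i ≤ n, f i ≠ c := fun c hc =>
      hf'.ne_of_mem hc (fun e => hxB (e ▸ hc))
    have hga : ∀ c ∈ B, ∀ i ≤ m, g i ≠ c := fun c hc =>
      hg'.ne_of_mem hc (fun e => hyB (e ▸ hc))
    have hwf := hf'.cons hax hxB
    have hwg := hg'.cons hby hyB
    by_cases hab : a = b
    · subst hab
      refine h2 a ⟨ha, fun t => if t then n + 1 else m + 1,
        fun t => if t then cons a f else cons a g, ?_, ?_, ?_⟩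
      · intro t; cases t
        · simpa using hwg
        · simpa using hwf
      · intro t; cases t
        · simpa using hm
        · simpa using hn
      · have key : ∀ i j, i ≤ n + 1 → j ≤ m + 1 → cons a f i = cons a g j →
            cons a f i = w ∨ (i = 0 ∧ j = 0) := by
          intro i j hi hj e
          rcases i with _ | i
          · rcases j with _ | j
            · exact Or.inr ⟨rfl, rfl⟩
            · exact absurd e.symm (hga a (hA ha) j (by omega))
          · rcases j with _ | j
            · exact absurd e (hfa a (hA ha) i (by omega))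
            · exact Or.inl (hap i (by omega) j (by omega) e)
        intro t i j hi hj e
        cases t
        · simp only [Bool.not_false, Bool.false_eq_true, if_false, if_true] at hi hj e ⊢
          rcases key j i hj hi e.symm with h | h
          · left; rw [e]; exact h
          · exact Or.inr ⟨h.2, h.1⟩
        · simp only [Bool.not_true, Bool.false_eq_true, if_false, if_true] at hi hj e ⊢
          exact key i j hi hj e
    · refine hD a ha b hb (n + 1) (m + 1) (cons a f) (cons b g) hab (by omega) (by omega) hwf hwg ?_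
      refine (hap.cons_left (hga a (hA ha))).cons_right ?_
      intro j hj e
      rcases j with _ | j
      · exact hab e
      · exact hfa b (hA hb) j (by omega) e

/-- A set which meets all walks of the next state meets all walks of the state. -/
theorem hit_of_next {B A : Set V} {L : ℕ} {S : Finset V} (hA : A ⊆ B) (hw : w ∉ B)
    (h : Hit G w (B ∪ Nx G B A) (Nx G B A) L S) : Hit G w B A (L + 1) S := by
  classical
  intro a ha n f hn hf
  have hne : a ≠ w := fun e => hw (e ▸ hA ha)
  have hn0 := hf.pos hne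
  have h1 : f 1 ∈ Nx G B A := by
    refine ⟨hf.avoid 1 one_pos hn0, a, ha, ?_⟩
    have := hf.adj 0 hn0
    rwa [hf.zero] at this
  -- the last index with `f i ∈ Nx`
  have hex : ∃ i, i ≤ n ∧ f i ∈ Nx G B A := ⟨1, hn0, h1⟩
  obtain ⟨i, ⟨hi, hiN⟩, hmax⟩ : ∃ i, (i ≤ n ∧ f i ∈ Nx G B A) ∧
      ∀ j, j ≤ n → f j ∈ Nx G B A → j ≤ i := by
    refine ⟨Nat.findGreatest (fun i => f i ∈ Nx G B A) n, ⟨Nat.findGreatest_le _, ?_⟩, ?_⟩
    · exact Nat.findGreatest_spec (P := fun i => f i ∈ Nx G B A) (m := 1) hn0 h1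
    · intro j hj hjN
      exact Nat.le_findGreatest hj hjN
  have hi1 := hmax 1 hn0 h1
  have hsh : Wk G w (B ∪ Nx G B A) (f i) (n - i) (fun k => f (i + k)) := by
    have h2 := hf.shift hi
    refine ⟨h2.zero, h2.last, h2.adj, ?_⟩
    rintro k hk hkn (hb | hb)
    · exact h2.avoid k hk hkn hb
    · have := hmax (i + k) (by omega) hb
      omega
  obtain ⟨k, hk, hkS⟩ := h (f i) hiN (n - i) _ (by omega) hsh
  exact ⟨i + k, by omega, hkS⟩

theorem hit_zero {B A : Set V} (hw : w ∉ A) : Hit G w B A 0 ∅ := by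
  intro a ha n f hn hf
  obtain rfl : n = 0 := by omega
  exact absurd (hf.zero.symm.trans hf.last) (fun e => hw (e ▸ ha))

theorem hit_erase {B A : Set V} {L : ℕ} {S : Finset V} {c : V} [DecidableEq V]
    (h : Hit G w B (A \ {c}) L S) : Hit G w B A L (insert c S) := by
  intro a ha n f hn hf
  by_cases hac : a = c
  · exact ⟨0, Nat.zero_le _, by rw [hf.zero, hac]; exact Finset.mem_insert_self _ _⟩
  · obtain ⟨i, hi, hiS⟩ := h a ⟨ha, hac⟩ n f hn hf
    exact ⟨i, hi, Finset.mem_insert_of_mem hiS⟩

theorem hit_insert {B A : Set V} {L : ℕ} {S : Finset V} {u : V} [DecidableEq V]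
    (h : Hit G w (insert u B) A L S) : Hit G w B A L (insert u S) := by
  intro a ha n f hn hf
  by_cases hu : ∃ i ≤ n, f i = u
  · obtain ⟨i, hi, e⟩ := hu
    exact ⟨i, hi, by rw [e]; exact Finset.mem_insert_self _ _⟩
  · push Not at hu
    obtain ⟨i, hi, hiS⟩ := h a ha n f hn ⟨hf.zero, hf.last, hf.adj, by
      rintro i h0 hin (hb | hb)
      · exact hu i hin hb
      · exact hf.avoid i h0 hin hb⟩
    exact ⟨i, hi, Finset.mem_insert_of_mem hiS⟩

end Pool.Agent.H30.Chung
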