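import Mathlib

/-!
# Small cuts of monotone networks, via Hall's theorem

`q : V → ℕ` with `q v = 0`, `q w = d`, `q ≤ d`.  If there are no `m + 1` internally disjoint
`v`-`w`-paths of length at most `d`, then the network of the arcs `x → y` (edges with
`q x + 1 ≤ q y`) has a vertex cut with at most `m` elements.
-/

set_option autoImplicit false

namespace Pool.Agent.H30.Chung.Menger

open SimpleGraph

variable {V : Type*} [Fintype V] [DecidableEq V]

theorem cut (G : SimpleGraph V) (v w : V) (d m : ℕ) (hvw : v ≠ w) (hadj : ¬ G.Adj v w)
    (hno : ¬ ∃ f : Fin (m + 1) → G.Walk v w,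
      (∀ i, (f i).IsPath ∧ (f i).length ≤ d) ∧
      ∀ i j, i ≠ j → ∀ x, x ∈ (f i).support → x ∈ (f j).support → x = v ∨ x = w)
    (q : V → ℕ) (hv : q v = 0) (hw : q w = d) (hq : ∀ x, q x ≤ d) :
    ∃ A C : Finset V, v ∈ A ∧ w ∉ A ∧ w ∉ C ∧ v ∉ C ∧ C.card ≤ m ∧
      ∀ x ∈ A, ∀ y, G.Adj x y → q x + 1 ≤ q y → y ∈ A ∨ y ∈ C := by
  classical
  let t : Fin (m + 1) ⊕ V → Finset (V ⊕ Fin (m + 1)) := fun a =>
    match a with
    | Sum.inl _ => Finset.univ.filter fun b =>
        match b with
        | Sum.inl y => y ≠ w ∧ G.Adj v y ∧ q v + 1 ≤ q y
        | Sum.inr _ => False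
    | Sum.inr x => Finset.univ.filter fun b =>
        match b with
        | Sum.inl y => y = x ∨ (x ≠ v ∧ y ≠ w ∧ G.Adj x y ∧ q x + 1 ≤ q y)
        | Sum.inr _ => x ≠ v ∧ G.Adj x w ∧ q x + 1 ≤ q w
  have t_ll : ∀ (i : Fin (m + 1)) (y : V), Sum.inl y ∈ t (Sum.inl i) ↔
      (y ≠ w ∧ G.Adj v y ∧ q v + 1 ≤ q y) := by
    intro i y
    simp [t]
  have t_lr : ∀ (i j : Fin (m + 1)), Sum.inr j ∉ t (Sum.inl i) := by
    intro i j
    simp [t]
  have t_rl : ∀ (x y : V), Sum.inl y ∈ t (Sum.inr x) ↔
      (y = x ∨ (x ≠ v ∧ y ≠ w ∧ G.Adj x y ∧ q x + 1 ≤ q y)) := by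
    intro x y
    simp [t]
  have t_rr : ∀ (x : V) (j : Fin (m + 1)), Sum.inr j ∈ t (Sum.inr x) ↔
      (x ≠ v ∧ G.Adj x w ∧ q x + 1 ≤ q w) := by
    intro x j
    simp [t]
  by_cases hall : ∀ s : Finset (Fin (m + 1) ⊕ V), s.card ≤ (s.biUnion t).card
  · exfalso
    obtain ⟨f, hinj, hf⟩ := (Finset.all_card_le_biUnion_card_iff_exists_injective t).1 hall
    apply hno
    let R : V → V → Prop := fun x y => f (Sum.inr x) = Sum.inl y
    -- walks from a moving vertex to the sink
    have walk : ∀ k : ℕ, ∀ y : V, d - q y = k → y ≠ v → y ≠ w → f (Sum.inr y) ≠ Sum.inl y →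
        ∃ p : G.Walk y w, p.length ≤ d - q y ∧
          ∀ z ∈ p.support, z = w ∨ Relation.ReflTransGen R y z := by
      intro k
      induction k using Nat.strong_induction_on with
      | _ k ih =>
        intro y hk hyv hyw hfy
        have hmem := hf (Sum.inr y)
        cases hfy' : f (Sum.inr y) with
        | inl z =>
          rw [hfy'] at hmem hfy
          rcases (t_rl y z).1 hmem with h | ⟨h1, h2, h3, h4⟩
          · rw [h] at hfy
            exact absurd rfl hfy
          · have hzd := hq z
            have hzv : z ≠ v := by
              intro h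
              rw [h, hv] at h4
              omega
            have hfz : f (Sum.inr z) ≠ Sum.inl z := by
              intro h
              rw [← hfy'] at h
              have := hinj h
              have hzy : z = y := by simpa using this
              rw [hzy] at h4
              omega
            obtain ⟨p, hp, hsup⟩ := ih (d - q z) (by omega) z rfl hzv h2 hfz
            refine ⟨Walk.cons h3 p, ?_, ?_⟩
            · rw [Walk.length_cons]
              omega
            · intro x hx
              rw [Walk.support_cons, List.mem_cons] at hx
              rcases hx with hx | hx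
              · right
                rw [hx]
              · rcases hsup x hx with h | h
                · left; exact h
                · right
                  exact Relation.ReflTransGen.head hfy' h
        | inr j =>
          rw [hfy'] at hmem
          obtain ⟨h1, h2, h3⟩ := (t_rr y j).1 hmem
          refine ⟨Walk.cons h2 Walk.nil, ?_, ?_⟩
          · rw [Walk.length_cons, Walk.length_nil]
            omega
          · intro x hx
            rw [Walk.support_cons, List.mem_cons, Walk.support_nil, List.mem_singleton] at hx
            rcases hx with hx | hx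
            · right
              rw [hx]
            · left; exact hx
    -- starts
    have start : ∀ i : Fin (m + 1), ∃ y : V, f (Sum.inl i) = Sum.inl y ∧
        ∃ p : G.Walk v w, p.length ≤ d ∧
          ∀ z ∈ p.support, z = v ∨ z = w ∨ Relation.ReflTransGen R y z := by
      intro i
      have hmem := hf (Sum.inl i)
      cases hfi : f (Sum.inl i) with
      | inl y =>
        rw [hfi] at hmem
        obtain ⟨h1, h2, h3⟩ := (t_ll i y).1 hmem
        have hyv : y ≠ v := by
          intro h
          rw [h] at h3
          omega
        have hfy : f (Sum.inr y) ≠ Sum.inl y := by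
          intro h
          rw [← hfi] at h
          have := hinj h
          simp at this
        have hyd := hq y
        obtain ⟨p, hp, hsup⟩ := walk (d - q y) y rfl hyv h1 hfy
        refine ⟨y, rfl, Walk.cons h2 p, ?_, ?_⟩
        · rw [Walk.length_cons]
          omega
        · intro x hx
          rw [Walk.support_cons, List.mem_cons] at hx
          rcases hx with hx | hx
          · left; exact hx
          · right; exact hsup x hx
      | inr j =>
        rw [hfi] at hmem
        exact absurd hmem (t_lr i j)
    choose s hs P hP hsup using start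
    have disj : ∀ i j : Fin (m + 1), i ≠ j → ∀ z, Relation.ReflTransGen R (s i) z →
        Relation.ReflTransGen R (s j) z → False := by
      intro i j hij z hz
      induction hz with
      | refl =>
        intro h
        rcases Relation.ReflTransGen.cases_tail h with h | ⟨c, -, hc⟩
        · apply hij
          have : f (Sum.inl i) = f (Sum.inl j) := by rw [hs i, hs j, h]
          simpa using hinj this
        · have : f (Sum.inr c) = f (Sum.inl i) := by rw [hs i]; exact hc
          have := hinj this
          simp at this
      | @tail b z' hab hbc ih =>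
        intro h
        rcases Relation.ReflTransGen.cases_tail h with h | ⟨c, hc1, hc⟩
        · have : f (Sum.inr b) = f (Sum.inl j) := by rw [hs j, ← h]; exact hbc
          have := hinj this
          simp at this
        · have h5 : f (Sum.inr c) = f (Sum.inr b) := Eq.trans hc (Eq.symm hbc)
          have h6 := hinj h5
          rw [Sum.inr.injEq] at h6
          rw [h6] at hc1
          exact ih hc1
    refine ⟨fun i => (P i).bypass, ?_, ?_⟩
    · intro i
      exact ⟨Walk.bypass_isPath _, (Walk.length_bypass_le_length _).trans (hP i)⟩
    · intro i j hij x hxi hxj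
      have h1 := hsup i x (Walk.support_bypass_subset_support _ hxi)
      have h2 := hsup j x (Walk.support_bypass_subset_support _ hxj)
      rcases h1 with h1 | h1 | h1
      · left; exact h1
      · right; exact h1
      · rcases h2 with h2 | h2 | h2
        · left; exact h2
        · right; exact h2
        · exact absurd h2 (fun h => disj i j hij x h1 h)
  · push Not at hall
    obtain ⟨T, hT⟩ := hall
    let T1 : Finset (Fin (m + 1)) := Finset.univ.filter fun i => Sum.inl i ∈ T
    let T2 : Finset V := Finset.univ.filter fun x => Sum.inr x ∈ T
    have hT12 : T.card ≤ T1.card + T2.card := by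
      have h1 : T ⊆ (T1.image Sum.inl) ∪ (T2.image Sum.inr) := by
        intro a ha
        rw [Finset.mem_union]
        cases a with
        | inl i => left; rw [Finset.mem_image]; exact ⟨i, by simp [T1, ha], rfl⟩
        | inr x => right; rw [Finset.mem_image]; exact ⟨x, by simp [T2, ha], rfl⟩
      refine (Finset.card_le_card h1).trans ((Finset.card_union_le _ _).trans ?_)
      exact Nat.add_le_add Finset.card_image_le Finset.card_image_le
    have hT1 : T1.card ≤ m + 1 := by
      simpa using Finset.card_le_univ T1
    have hself : ∀ x ∈ T2, Sum.inl x ∈ T.biUnion t := by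
      intro x hx
      rw [Finset.mem_biUnion]
      exact ⟨Sum.inr x, by simpa [T2] using hx, (t_rl x x).2 (Or.inl rfl)⟩
    have hT2Γ : (T2.image Sum.inl : Finset (V ⊕ Fin (m + 1))) ⊆ T.biUnion t := by
      intro a ha
      rw [Finset.mem_image] at ha
      obtain ⟨x, hx, rfl⟩ := ha
      exact hself x hx
    have hT2card : (T2.image Sum.inl : Finset (V ⊕ Fin (m + 1))).card = T2.card :=
      Finset.card_image_of_injective _ Sum.inl_injective
    -- there is a token
    have htok : T1.Nonempty := by
      by_contra h
      rw [Finset.not_nonempty_iff_eq_empty] at h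
      rw [h, Finset.card_empty] at hT12
      have := Finset.card_le_card hT2Γ
      omega
    obtain ⟨i0, hi0⟩ := htok
    have hi0T : Sum.inl i0 ∈ T := by simpa [T1] using hi0
    -- no sink
    have hnosink : ∀ x ∈ T2, ¬ (x ≠ v ∧ G.Adj x w ∧ q x + 1 ≤ q w) := by
      intro x hx hcon
      have h1 : (T2.image Sum.inl) ∪ (Finset.univ.image Sum.inr : Finset (V ⊕ Fin (m + 1)))
          ⊆ T.biUnion t := by
        intro a ha
        rw [Finset.mem_union] at ha
        rcases ha with ha | ha
        · exact hT2Γ ha
        · rw [Finset.mem_image] at ha
          obtain ⟨j, -, rfl⟩ := ha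
          rw [Finset.mem_biUnion]
          exact ⟨Sum.inr x, by simpa [T2] using hx, (t_rr x j).2 hcon⟩
      have h2 := Finset.card_le_card h1
      rw [Finset.card_union_of_disjoint, hT2card,
        Finset.card_image_of_injective _ Sum.inr_injective] at h2
      · simp only [Finset.card_univ, Fintype.card_fin] at h2
        omega
      · rw [Finset.disjoint_left]
        intro a ha ha'
        rw [Finset.mem_image] at ha ha'
        obtain ⟨x1, -, rfl⟩ := ha
        obtain ⟨j, -, hj⟩ := ha'
        simp at hj
    let C : Finset V := (Finset.univ.filter fun y => Sum.inl y ∈ T.biUnion t) \ T2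
    have hC : C.card ≤ m := by
      have h1 : (T2.image Sum.inl) ∪ (C.image Sum.inl : Finset (V ⊕ Fin (m + 1)))
          ⊆ T.biUnion t := by
        intro a ha
        rw [Finset.mem_union] at ha
        rcases ha with ha | ha
        · exact hT2Γ ha
        · rw [Finset.mem_image] at ha
          obtain ⟨y, hy, rfl⟩ := ha
          simp only [C, Finset.mem_sdiff, Finset.mem_filter, Finset.mem_univ, true_and] at hy
          exact hy.1
      have h2 := Finset.card_le_card h1
      rw [Finset.card_union_of_disjoint, hT2card,
        Finset.card_image_of_injective _ Sum.inl_injective] at h2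
      · omega
      · rw [Finset.disjoint_left]
        intro a ha ha'
        rw [Finset.mem_image] at ha ha'
        obtain ⟨x1, hx1, rfl⟩ := ha
        obtain ⟨y, hy, hj⟩ := ha'
        rw [Sum.inl.injEq] at hj
        rw [hj] at hy
        simp only [C, Finset.mem_sdiff] at hy
        exact hy.2 hx1
    have hvC : v ∉ C := by
      intro h
      simp only [C, Finset.mem_sdiff, Finset.mem_filter, Finset.mem_univ, true_and] at h
      obtain ⟨h1, h2⟩ := h
      rw [Finset.mem_biUnion] at h1
      obtain ⟨a, ha, ha'⟩ := h1
      cases a with
      | inl i =>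
        have := (t_ll i v).1 ha'
        omega
      | inr x =>
        rcases (t_rl x v).1 ha' with h3 | ⟨-, -, -, h3⟩
        · rw [← h3] at ha
          exact h2 (by simp [T2, ha])
        · omega
    have hwC : w ∉ C := by
      intro h
      simp only [C, Finset.mem_sdiff, Finset.mem_filter, Finset.mem_univ, true_and] at h
      obtain ⟨h1, h2⟩ := h
      rw [Finset.mem_biUnion] at h1
      obtain ⟨a, ha, ha'⟩ := h1
      cases a with
      | inl i =>
        have := (t_ll i w).1 ha'
        exact this.1 rfl
      | inr x =>
        rcases (t_rl x w).1 ha' with h3 | ⟨-, h3, -, -⟩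
        · rw [← h3] at ha
          exact h2 (by simp [T2, ha])
        · exact h3 rfl
    refine ⟨insert v (T2.erase w), C, Finset.mem_insert_self _ _, ?_, hwC, hvC, hC, ?_⟩
    · intro h
      rw [Finset.mem_insert] at h
      rcases h with h | h
      · exact hvw h.symm
      · exact absurd rfl (Finset.ne_of_mem_erase h)
    · intro x hx y hxy hqxy
      by_cases hyC : y ∈ C
      · right; exact hyC
      · left
        rw [Finset.mem_insert, Finset.mem_erase]
        -- `y` is reached
        have hyw : y ≠ w := by
          intro h
          rw [Finset.mem_insert] at hx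
          rcases hx with hx | hx
          · rw [hx, h] at hxy
            exact hadj hxy
          · by_cases hxv : x = v
            · rw [hxv, h] at hxy
              exact hadj hxy
            · exact hnosink x (Finset.mem_of_mem_erase hx) ⟨hxv, h ▸ hxy, h ▸ hqxy⟩
        right
        refine ⟨hyw, ?_⟩
        by_contra hyT
        apply hyC
        simp only [C, Finset.mem_sdiff, Finset.mem_filter, Finset.mem_univ, true_and]
        refine ⟨?_, hyT⟩
        rw [Finset.mem_biUnion]
        by_cases hxv : x = v
        · refine ⟨Sum.inl i0, hi0T, (t_ll i0 y).2 ⟨hyw, ?_, ?_⟩⟩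
          · rw [← hxv]; exact hxy
          · rw [← hxv]; exact hqxy
        · have hxT : x ∈ T2 := by
            rw [Finset.mem_insert] at hx
            rcases hx with hx | hx
            · exact absurd hx hxv
            · exact Finset.mem_of_mem_erase hx
          refine ⟨Sum.inr x, by simpa [T2] using hxT, (t_rl x y).2 (Or.inr ⟨hxv, hyw, hxy, hqxy⟩)⟩

end Pool.Agent.H30.Chung.Menger
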