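import Pool.Agent.H30.Chung.Claims

/-!
# The main induction for one disjoint path
-/

set_option autoImplicit false

namespace Pool.Agent.H30.Chung

variable {V : Type*} {G : SimpleGraph V} {w : V}

/-- Main induction. -/
theorem main_ind (v : V) (L : ℕ) : ∀ B A : Set V, A ⊆ B → w ∉ B → v ∈ B → v ∉ A →
    Dis G w B A L → ∃ S : Finset V, v ∉ S ∧ w ∉ S ∧ S.card ≤ (L + 2) / 3 ∧ Hit G w B A L S := by
  classical
  induction L using Nat.strong_induction_on with
  | _ L ih =>
  intro B A hA hw hv hvA hD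
  rcases L with _ | L
  · exact ⟨∅, by simp, by simp, by simp, hit_zero (fun h => hw (hA h))⟩
  have hNv : ∀ B' A' : Set V, v ∈ B' → v ∉ Nx G B' A' := fun B' A' h h' => h'.1 h
  have hBw : ∀ B' A' : Set V, w ∉ B' → w ∉ Nx G B' A' → w ∉ B' ∪ Nx G B' A' := by
    rintro B' A' h h' (h2 | h2)
    · exact h h2
    · exact h' h2
  by_cases hdbl : ∃ c, Dbl G w B A (L + 1) c
  swap
  · push Not at hdbl
    obtain ⟨hw2, hD2⟩ := adv hA hw hD hdbl
    obtain ⟨S, hvS, hwS, hS, hH⟩ := ih L (by omega) (B ∪ Nx G B A) (Nx G B A)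
      Set.subset_union_right (hBw _ _ hw hw2) (Or.inl hv) (hNv _ _ hv) hD2
    exact ⟨S, hvS, hwS, by omega, hit_of_next hA hw hH⟩
  obtain ⟨c, hdc⟩ := hdbl
  have hc : c ∈ A := hdc.1
  have hvc : v ≠ c := fun e => hvA (e ▸ hc)
  have hwc : w ≠ c := fun e => hw (e ▸ hA hc)
  have hA1 : A \ {c} ⊆ B := Set.sdiff_subset.trans hA
  have hD1 : Dis G w B (A \ {c}) (L + 1) := hD.mono subset_rfl Set.sdiff_subset le_rfl
  have hno1 : ∀ c', ¬ Dbl G w B (A \ {c}) (L + 1) c' := by
    rintro c' ⟨⟨hc', hne⟩, h⟩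
    exact hne (dbl_unique hA hD ⟨hc', h⟩ hdc)
  obtain ⟨hw2, hD2⟩ := adv hA1 hw hD1 hno1
  have hno2 := claimB hA hD hdc
  have hcard : ∀ (x : V) (S : Finset V), (insert x S).card ≤ S.card + 1 := fun x S =>
    Finset.card_insert_le _ _
  have hwB2 := hBw _ _ hw hw2
  rcases L with _ | L
  · refine ⟨insert c ∅, ?_, ?_, by simp, hit_erase (hit_of_next hA1 hw (hit_zero hw2))⟩
    · simpa using hvc
    · simpa using hwc
  obtain ⟨hw3, hD3⟩ := adv Set.subset_union_right hwB2 hD2 hno2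
  have hwB3 := hBw _ _ hwB2 hw3
  rcases L with _ | L
  · refine ⟨insert c ∅, ?_, ?_, by simp, hit_erase (hit_of_next hA1 hw
      (hit_of_next Set.subset_union_right hwB2 (hit_zero hw3)))⟩
    · simpa using hvc
    · simpa using hwc
  by_cases hdbl3 : ∃ u, Dbl G w (B ∪ Nx G B (A \ {c}) ∪ Nx G (B ∪ Nx G B (A \ {c}))
      (Nx G B (A \ {c}))) (Nx G (B ∪ Nx G B (A \ {c})) (Nx G B (A \ {c}))) (L + 1) u
  swap
  · push Not at hdbl3
    obtain ⟨hw4, hD4⟩ := adv Set.subset_union_right hwB3 hD3 hdbl3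
    have hwB4 := hBw _ _ hwB3 hw4
    obtain ⟨S, hvS, hwS, hS, hH⟩ := ih L (by omega) _ _ Set.subset_union_right hwB4
      (Or.inl (Or.inl (Or.inl hv))) (hNv _ _ (Or.inl (Or.inl hv))) hD4
    refine ⟨insert c S, ?_, ?_, ?_, hit_erase (hit_of_next hA1 hw
      (hit_of_next Set.subset_union_right hwB2 (hit_of_next Set.subset_union_right hwB3 hH)))⟩
    · simpa using ⟨hvc, hvS⟩
    · simpa using ⟨hwc, hwS⟩
    · have := hcard c S
      omega
  obtain ⟨u, hdu⟩ := hdbl3
  obtain ⟨nc, fc, hfc⟩ := hdc.2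
  obtain ⟨a, ha1, hau⟩ := claimC hA hD hc hfc hdu
  have hcu : G.Adj c u := by
    have := (hfc.wk a).adj 0 ha1
    rwa [(hfc.wk a).zero, zero_add, hau] at this
  obtain ⟨⟨hu, b₀, hb₀, hbu⟩, n, f, hfu⟩ := id hdu
  have huB : u ∉ B := fun e => hu (Or.inl e)
  have huN : u ∉ Nx G B (A \ {c}) := fun e => hu (Or.inr e)
  obtain ⟨hbB, a₀, ⟨ha₀, hac⟩, hab⟩ := hb₀
  have T : Third G w B A (L + 1) c u a₀ b₀ n f := by
    refine ⟨hA, hD, hc, huB, hcu, ha₀, hac, hab, hbB, hbu,
      hfu.mono (Set.subset_union_left.trans Set.subset_union_left) le_rfl, ?_⟩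
    intro a i hi hN
    rcases Nat.eq_zero_or_pos i with rfl | hi0
    · rw [(hfu.wk a).zero] at hN; exact huN hN
    · exact (hfu.wk a).avoid i hi0 hi (Or.inl (Or.inr hN))
  have huw : u ≠ w := by
    rintro rfl
    exact hw3 ⟨hu, b₀, ⟨hbB, a₀, ⟨ha₀, hac⟩, hab⟩, hbu⟩
  have hvu : v ≠ u := fun e => huB (e ▸ hv)
  have hAu : A ⊆ insert u B := hA.trans (Set.subset_insert _ _)
  have hwu : w ∉ insert u B := by
    rintro (e | e)
    · exact huw e.symm
    · exact hw e
  have hDu : Dis G w (insert u B) A (L + 1 + 2) :=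
    hD.mono (Set.subset_insert _ _) subset_rfl le_rfl
  have hnou : ∀ c', ¬ Dbl G w (insert u B) A (L + 1 + 2) c' := by
    rintro c' ⟨hc', n', f', hf'⟩
    have h1 := hf'.mono (B := B) (Set.subset_insert _ _) le_rfl
    obtain rfl := dbl_unique hA hD ⟨hc', n', f', h1⟩ hdc
    obtain ⟨a, ha1, hau⟩ := claimC hA hD hc' h1 hdu
    exact (hf'.wk a).avoid 1 one_pos ha1 (Or.inl hau)
  obtain ⟨hw2', hD2'⟩ := adv hAu hwu hDu hnou
  have hwB2' := hBw _ _ hwu hw2'
  obtain ⟨hw3', hD3'⟩ := adv Set.subset_union_right hwB2' hD2' (claimD T)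
  have hwB3' := hBw _ _ hwB2' hw3'
  obtain ⟨hw4', hD4'⟩ := adv Set.subset_union_right hwB3' hD3' (claimE T)
  have hwB4' := hBw _ _ hwB3' hw4'
  obtain ⟨S, hvS, hwS, hS, hH⟩ := ih L (by omega) _ _ Set.subset_union_right hwB4'
    (Or.inl (Or.inl (Or.inl (Or.inr hv)))) (hNv _ _ (Or.inl (Or.inl (Or.inr hv)))) hD4'
  refine ⟨insert u S, ?_, ?_, ?_, hit_insert (hit_of_next hAu hwu
    (hit_of_next Set.subset_union_right hwB2' (hit_of_next Set.subset_union_right hwB3' hH)))⟩
  · simpa using ⟨hvu, hvS⟩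
  · simpa using ⟨huw.symm, hwS⟩
  · have := hcard u S
    omega

/-- A function describing a walk gives a walk. -/
theorem exists_walk (f : ℕ → V) (n : ℕ) (h : ∀ i < n, G.Adj (f i) (f (i + 1))) {x y : V}
    (hx : f 0 = x) (hy : f n = y) :
    ∃ p : G.Walk x y, p.length = n ∧ ∀ x ∈ p.support, ∃ i ≤ n, f i = x := by
  subst hx hy
  induction n with
  | zero => exact ⟨SimpleGraph.Walk.nil, rfl, by simp⟩
  | succ n ih =>
    obtain ⟨p, hp, hs⟩ := ih (fun i hi => h i (by omega))
    refine ⟨p.concat (h n (by omega)), by simp [hp], ?_⟩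
    intro x hx
    rw [SimpleGraph.Walk.support_concat, List.mem_append] at hx
    rcases hx with hx | hx
    · obtain ⟨i, hi, e⟩ := hs x hx
      exact ⟨i, by omega, e⟩
    · simp only [List.mem_singleton] at hx
      exact ⟨n + 1, le_rfl, hx.symm⟩

/-- A walk of a state starting in a neighbour of `v` gives a path from `v`. -/
theorem exists_path {B : Set V} {v a : V} {n : ℕ} {f : ℕ → V} (hf : Wk G w B a n f)
    (hva : G.Adj v a) : ∃ p : G.Walk v w, p.IsPath ∧ p.length ≤ n + 1 ∧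
      ∀ x ∈ p.support, x = v ∨ ∃ i ≤ n, f i = x := by
  classical
  obtain ⟨p, hp, hs⟩ := exists_walk (G := G) (cons v f) (n + 1) (by
    rintro (_ | i) hi
    · simpa [hf.zero] using hva
    · simpa using hf.adj i (by omega)) (x := v) (y := w) rfl hf.last
  refine ⟨p.bypass, p.bypass_isPath, (p.length_bypass_le_length).trans_eq hp, ?_⟩
  intro x hx
  obtain ⟨i, hi, e⟩ := hs x (p.support_bypass_subset_support hx)
  rcases i with _ | i
  · exact Or.inl e.symm
  · exact Or.inr ⟨i, by omega, e⟩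

/-- **Main theorem.** If there are no two paths from `v` to `w` of length at most `d` which share
only `v` and `w`, then at most `(d + 1) / 3` vertices meet all paths of length at most `d`. -/
theorem muOne (G : SimpleGraph V) (v w : V) (d : ℕ) (hvw : v ≠ w) (hadj : ¬ G.Adj v w)
    (h : ¬ ∃ p q : G.Walk v w, p.IsPath ∧ p.length ≤ d ∧ q.IsPath ∧ q.length ≤ d ∧
      ∀ x ∈ p.support, x ∈ q.support → x = v ∨ x = w) :
    ∃ S : Finset V, v ∉ S ∧ w ∉ S ∧ S.card ≤ (d + 1) / 3 ∧
      ∀ p : G.Walk v w, p.IsPath → p.length ≤ d → ∃ x ∈ S, x ∈ p.support := by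
  classical
  rcases d with _ | L
  · refine ⟨∅, by simp, by simp, by simp, ?_⟩
    intro p _ hp
    exact absurd (SimpleGraph.Walk.eq_of_length_eq_zero (Nat.le_zero.1 hp)) hvw
  let A : Set V := {x | G.Adj v x}
  let B : Set V := insert v A
  have hA : A ⊆ B := Set.subset_insert _ _
  have hvA : v ∉ A := fun e => G.loopless.irrefl _ e
  have hwB : w ∉ B := by
    rintro (e | e)
    · exact hvw e.symm
    · exact hadj e
  have hD : Dis G w B A L := by
    intro a ha b hb n m f g hab hn hm hf hg hap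
    obtain ⟨p, hp, hpl, hps⟩ := exists_path hf ha
    obtain ⟨q, hq, hql, hqs⟩ := exists_path hg hb
    refine h ⟨p, q, hp, by omega, hq, by omega, ?_⟩
    intro x hx hx'
    rcases hps x hx with e | ⟨i, hi, e⟩
    · exact Or.inl e
    · rcases hqs x hx' with e' | ⟨j, hj, e'⟩
      · exact Or.inl e'
      · right
        rw [← e]
        exact hap i hi j hj (e.trans e'.symm)
  obtain ⟨S, hvS, hwS, hS, hH⟩ := main_ind v L B A hA hwB (Or.inl rfl) hvA hD
  refine ⟨S, hvS, hwS, by omega, ?_⟩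
  intro p hp hpl
  have hlen : 0 < p.length := by
    rcases Nat.eq_zero_or_pos p.length with h0 | h0
    · exact absurd (SimpleGraph.Walk.eq_of_length_eq_zero h0) hvw
    · exact h0
  have h1 : p.getVert 1 ∈ A := by
    have := p.adj_getVert_succ hlen
    simpa [A] using this
  obtain ⟨i, hi, hiA, hmax⟩ : ∃ i, i ≤ p.length ∧ p.getVert i ∈ A ∧
      ∀ j, j ≤ p.length → p.getVert j ∈ A → j ≤ i :=
    ⟨Nat.findGreatest (fun i => p.getVert i ∈ A) p.length, Nat.findGreatest_le _,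
      Nat.findGreatest_spec (P := fun i => p.getVert i ∈ A) (m := 1) hlen h1,
      fun j hj hjN => Nat.le_findGreatest hj hjN⟩
  have hi1 := hmax 1 hlen h1
  obtain ⟨k, hk, hkS⟩ := hH (p.getVert i) hiA (p.length - i) (fun k => p.getVert (i + k))
    (by omega) ⟨by simp, by
      show p.getVert (i + (p.length - i)) = w
      rw [show i + (p.length - i) = p.length by omega, SimpleGraph.Walk.getVert_length], by
      intro k hk
      have := p.adj_getVert_succ (i := i + k) (by omega)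
      simpa [add_assoc] using this, by
      rintro k h0 hk (e | e)
      · have h2 := hp.getVert_injOn (show i + k ∈ {j | j ≤ p.length} by
          simp only [Set.mem_ofPred_eq]; omega) (show 0 ∈ {j | j ≤ p.length} by simp)
          (by rw [SimpleGraph.Walk.getVert_zero]; exact e)
        omega
      · have := hmax (i + k) (by omega) e
        omega⟩
  exact ⟨_, hkS, p.getVert_mem_support _⟩

end Pool.Agent.H30.Chung
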