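import Mathlib

/-!
# Randomised rounding of the self-consistent potential (helper86's argument, step 2)
-/

set_option autoImplicit false

namespace Pool.Agent.H30.Chung.Round

open MeasureTheory Set

/-- distance to the ends of the unit cell -/
noncomputable def tent (s : ℝ) : ℝ := min s (1 - s)

/-- deletion indicator -/
noncomputable def ind (c s : ℝ) : ℝ := if tent s ≤ c then 1 else 0

lemma measurable_tent : Measurable tent := by
  unfold tent
  exact measurable_id.min (measurable_const.sub measurable_id)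

lemma measurable_ind (c : ℝ) : Measurable (ind c) := by
  unfold ind
  exact Measurable.ite (measurableSet_le measurable_tent measurable_const) measurable_const
    measurable_const

lemma ind_nonneg (c s : ℝ) : 0 ≤ ind c s := by
  unfold ind; split_ifs <;> norm_num

lemma ind_le_one (c s : ℝ) : ind c s ≤ 1 := by
  unfold ind; split_ifs <;> norm_num

lemma integral_ind (c : ℝ) : ∫ s in (0:ℝ)..1, ind c s ≤ min 1 (max 0 (2 * c)) := by
  rw [intervalIntegral.integral_of_le (by norm_num)]
  have h0 : ∀ s, ind c s = indicator {s | tent s ≤ c} (1 : ℝ → ℝ) s := by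
    intro s
    simp [ind, indicator]
  have h1 : ∫ s in Ioc (0:ℝ) 1, ind c s
      = volume.real ({s | tent s ≤ c} ∩ Ioc (0:ℝ) 1) := by
    simp_rw [h0]
    rw [integral_indicator_one (measurableSet_le measurable_tent measurable_const),
      measureReal_restrict_apply (measurableSet_le measurable_tent measurable_const)]
  rw [h1]
  apply le_min
  · calc volume.real ({s | tent s ≤ c} ∩ Ioc (0:ℝ) 1) ≤ volume.real (Ioc (0:ℝ) 1) :=
          measureReal_mono inter_subset_right (by simp)
      _ = 1 := by simp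
  · rcases lt_or_ge c 0 with hc | hc
    · have : ({s | tent s ≤ c} ∩ Ioc (0:ℝ) 1) = ∅ := by
        rw [eq_empty_iff_forall_notMem]
        rintro s ⟨hs, hs1, hs2⟩
        simp only [mem_ofPred_eq, tent] at hs
        rcases min_le_iff.1 hs with h | h <;> linarith
      rw [this]
      simp
    · have hsub : ({s | tent s ≤ c} ∩ Ioc (0:ℝ) 1) ⊆ Icc 0 c ∪ Icc (1 - c) 1 := by
        rintro s ⟨hs, hs1, hs2⟩
        simp only [mem_ofPred_eq, tent] at hs
        rcases min_le_iff.1 hs with h | h
        · left; exact ⟨hs1.le, h⟩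
        · right; exact ⟨by linarith, hs2⟩
      calc volume.real ({s | tent s ≤ c} ∩ Ioc (0:ℝ) 1)
          ≤ volume.real (Icc 0 c ∪ Icc (1 - c) 1) := by
            refine measureReal_mono hsub ?_
            refine ((measure_union_le _ _).trans_lt ?_).ne
            simp
        _ ≤ volume.real (Icc 0 c) + volume.real (Icc (1 - c) 1) := measureReal_union_le _ _
        _ = 2 * c := by
            rw [Real.volume_real_Icc_of_le hc, Real.volume_real_Icc_of_le (by linarith)]
            ring
        _ ≤ max 0 (2 * c) := le_max_right _ _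

/-- total number of schemes deleting a vertex -/
noncomputable def g (f s : ℝ) : ℝ := ind f s + ind (f - 1 / 2) s + ind (f - 1) s

lemma measurable_g (f : ℝ) : Measurable (g f) := by
  unfold g
  exact ((measurable_ind _).add (measurable_ind _)).add (measurable_ind _)

lemma g_nonneg (f s : ℝ) : 0 ≤ g f s := by
  unfold g
  have := ind_nonneg f s
  have := ind_nonneg (f - 1 / 2) s
  have := ind_nonneg (f - 1) s
  linarith

lemma g_le (f s : ℝ) : g f s ≤ 3 := by
  unfold g
  have := ind_le_one f s
  have := ind_le_one (f - 1 / 2) s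
  have := ind_le_one (f - 1) s
  linarith

lemma intervalIntegrable_of_bdd {h : ℝ → ℝ} (hm : Measurable h) (C : ℝ) (h0 : ∀ s, 0 ≤ h s)
    (h1 : ∀ s, h s ≤ C) (a b : ℝ) : IntervalIntegrable h volume a b := by
  rw [intervalIntegrable_iff]
  refine Measure.integrableOn_of_bounded (M := C) ?_ hm.aestronglyMeasurable ?_
  · simp
  · refine Filter.Eventually.of_forall fun s => ?_
    rw [Real.norm_eq_abs, abs_of_nonneg (h0 s)]
    exact h1 s

lemma integral_g (f : ℝ) (hf : 0 ≤ f) : ∫ s in (0:ℝ)..1, g f s ≤ 2 * f := by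
  have hi : ∀ c, IntervalIntegrable (ind c) volume 0 1 := fun c =>
    intervalIntegrable_of_bdd (measurable_ind c) 1 (ind_nonneg c) (ind_le_one c) 0 1
  have h1 : ∫ s in (0:ℝ)..1, g f s = (∫ s in (0:ℝ)..1, ind f s)
      + (∫ s in (0:ℝ)..1, ind (f - 1 / 2) s) + ∫ s in (0:ℝ)..1, ind (f - 1) s := by
    unfold g
    rw [intervalIntegral.integral_add ((hi _).add (hi _)) (hi _),
      intervalIntegral.integral_add (hi _) (hi _)]
  rw [h1]
  have a1 := integral_ind f
  have a2 := integral_ind (f - 1 / 2)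
  have a3 := integral_ind (f - 1)
  have b1 := a1.trans (min_le_left _ _)
  have b1' := a1.trans (min_le_right _ _)
  have b2 := a2.trans (min_le_left _ _)
  have b2' := a2.trans (min_le_right _ _)
  have b3 := a3.trans (min_le_left _ _)
  have b3' := a3.trans (min_le_right _ _)
  rw [max_eq_right (by linarith)] at b1'
  rcases le_total (2 * (f - 1 / 2)) 0 with h | h
  · rw [max_eq_left h] at b2'
    rw [max_eq_left (by linarith)] at b3'
    linarith
  · rw [max_eq_right h] at b2'
    rcases le_total (2 * (f - 1)) 0 with h' | h'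
    · rw [max_eq_left h'] at b3'
      linarith
    · rw [max_eq_right h'] at b3'
      linarith

lemma integral_g_shift (f p : ℝ) :
    ∫ θ in (0:ℝ)..1, g f (Int.fract (p - θ)) = ∫ s in (0:ℝ)..1, g f s := by
  have h1 : ∫ θ in (0:ℝ)..1, g f (Int.fract (p - θ)) = ∫ t in (p - 1)..(p - 0), g f (Int.fract t) :=
    intervalIntegral.integral_comp_sub_left (fun t => g f (Int.fract t)) p
  have hper : Function.Periodic (fun t : ℝ => g f (Int.fract t)) 1 := by
    intro t
    simp
  have h2 := hper.intervalIntegral_add_eq (p - 1) 0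
  rw [h1]
  have h3 : p - 0 = p - 1 + 1 := by ring
  rw [h3, h2, zero_add]
  rw [intervalIntegral.integral_of_le (by norm_num), intervalIntegral.integral_of_le (by norm_num),
    ← integral_Ico_eq_integral_Ioc, ← integral_Ico_eq_integral_Ioc]
  refine setIntegral_congr_fun measurableSet_Ico ?_
  intro t ht
  simp only
  rw [Int.fract_eq_self.2 ⟨ht.1, ht.2⟩]

/-- the three schemes -/
noncomputable def sch (j : Fin 3) (n : ℤ) : ℝ :=
  if j = 0 then 1 / 2 else if j = 1 then (if n % 4 < 2 then 0 else 1)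
  else (if n % 4 < 2 then 1 else 0)

lemma sch_nonneg (j : Fin 3) (n : ℤ) : 0 ≤ sch j n := by
  unfold sch; split_ifs <;> norm_num

lemma sch_le_one (j : Fin 3) (n : ℤ) : sch j n ≤ 1 := by
  unfold sch; split_ifs <;> norm_num

lemma sch_add (j : Fin 3) (n : ℤ) : sch j n + sch j (n + 2) ≤ 1 := by
  unfold sch
  by_cases h : n % 4 < 2
  · have h' : ¬ (n + 2) % 4 < 2 := by omega
    simp only [h, h', if_true, if_false]
    split_ifs <;> norm_num
  · have h' : (n + 2) % 4 < 2 := by omega
    simp only [h, h', if_true, if_false]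
    split_ifs <;> norm_num

lemma sch_sum (n : ℤ) (f s : ℝ) : ∑ j : Fin 3, ind (f - sch j n) s = g f s := by
  rw [Fin.sum_univ_three]
  unfold g sch
  by_cases h : n % 4 < 2
  · simp [h]
    ring
  · simp [h]
    ring

/-- **Rounding.** -/
theorem round {V : Type*} [Fintype V] [DecidableEq V] (G : SimpleGraph V) (v w : V) (d : ℕ)
    (p u : V → ℝ) (hpv : p v = 0) (hpw : p w = d) (huv : u v = 0) (huw : u w = 0)
    (hu : ∀ x, 0 ≤ u x)
    (hstar : ∀ x y, G.Adj x y → p y - p x < 1 ∨ p y - p x ≤ (u x + u y) / 2) :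
    ∃ (n : V → ℤ) (H : Finset V), n v = -1 ∧ n w = (d : ℤ) - 1 ∧ v ∉ H ∧ w ∉ H ∧
      3 * (H.card : ℝ) ≤ ∑ x, u x ∧
      ∀ x y, G.Adj x y → x ∉ H → y ∉ H → n y ≤ n x + 1 := by
  classical
  -- choice of theta
  have hmeas : ∀ x, Measurable fun θ : ℝ => g (u x / 2) (Int.fract (p x - θ)) := fun x =>
    (measurable_g _).comp (measurable_fract.comp (measurable_const.sub measurable_id))
  have hii : ∀ x, IntervalIntegrable (fun θ : ℝ => g (u x / 2) (Int.fract (p x - θ))) volume 0 1 :=
    fun x => intervalIntegrable_of_bdd (hmeas x) 3 (fun s => g_nonneg _ _) (fun s => g_le _ _) 0 1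
  obtain ⟨θ, ⟨hθ0, hθ1⟩, hθ⟩ : ∃ θ ∈ Ioo (0:ℝ) 1,
      ∑ x, g (u x / 2) (Int.fract (p x - θ)) ≤ ∑ x, u x := by
    have hvol : volume (Ioo (0:ℝ) 1) = 1 := by simp
    have hint : IntegrableOn (fun θ : ℝ => ∑ x, g (u x / 2) (Int.fract (p x - θ)))
        (Ioo (0:ℝ) 1) volume := by
      refine integrable_finsetSum _ fun x _ => ?_
      have := (intervalIntegrable_iff_integrableOn_Ioc_of_le (by norm_num)).1 (hii x)
      exact this.mono_set Ioo_subset_Ioc_self
    obtain ⟨θ, hθ, hle⟩ := exists_le_setAverage (by rw [hvol]; norm_num) (by rw [hvol]; norm_num)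
      hint
    refine ⟨θ, hθ, hle.trans ?_⟩
    rw [setAverage_eq]
    have : volume.real (Ioo (0:ℝ) 1) = 1 := by simp
    rw [this, inv_one, one_smul, ← integral_Ioc_eq_integral_Ioo,
      ← intervalIntegral.integral_of_le (by norm_num),
      intervalIntegral.integral_finsetSum fun x _ => hii x]
    refine Finset.sum_le_sum fun x _ => ?_
    rw [integral_g_shift]
    have := integral_g (u x / 2) (by have := hu x; linarith)
    linarith
  -- choice of the scheme
  obtain ⟨j, hj⟩ : ∃ j : Fin 3, 3 * ∑ x, ind (u x / 2 - sch j ⌊p x - θ⌋) (Int.fract (p x - θ))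
      ≤ ∑ x, u x := by
    by_contra hcon
    push Not at hcon
    have h1 : ∑ j : Fin 3, ∑ x, ind (u x / 2 - sch j ⌊p x - θ⌋) (Int.fract (p x - θ))
        = ∑ x, g (u x / 2) (Int.fract (p x - θ)) := by
      rw [Finset.sum_comm]
      exact Finset.sum_congr rfl fun x _ => sch_sum _ _ _
    rw [← h1, Fin.sum_univ_three] at hθ
    have c0 := hcon 0
    have c1 := hcon 1
    have c2 := hcon 2
    linarith
  have hend : ∀ k : ℤ, ⌊(k : ℝ) - θ⌋ = k - 1 ∧ Int.fract ((k : ℝ) - θ) = 1 - θ := by
    intro k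
    have h1 : ⌊(k : ℝ) - θ⌋ = k - 1 := by
      rw [Int.floor_eq_iff]
      push_cast
      constructor <;> linarith
    refine ⟨h1, ?_⟩
    unfold Int.fract
    rw [h1]
    push_cast
    ring
  have hnot : ∀ (x : V) (k : ℤ), p x = k → u x = 0 →
      ¬ (tent (Int.fract (p x - θ)) ≤ u x / 2 - sch j ⌊p x - θ⌋) := by
    intro x k hx hux h
    rw [hx, (hend k).2, hux] at h
    have h1 := sch_nonneg j ⌊(k : ℝ) - θ⌋
    have h2 : 0 < tent (1 - θ) := by
      unfold tent
      apply lt_min <;> linarith
    linarith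
  refine ⟨fun x => ⌊p x - θ⌋, Finset.univ.filter fun x =>
      tent (Int.fract (p x - θ)) ≤ u x / 2 - sch j ⌊p x - θ⌋, ?_, ?_, ?_, ?_, ?_, ?_⟩
  · have := (hend 0).1
    simp only [hpv]
    simpa using this
  · have := (hend (d : ℤ)).1
    simp only [hpw]
    simpa using this
  · rw [Finset.mem_filter]
    rintro ⟨-, h⟩
    exact hnot v 0 (by simpa using hpv) huv h
  · rw [Finset.mem_filter]
    rintro ⟨-, h⟩
    exact hnot w (d : ℤ) (by simpa using hpw) huw h
  · refine le_trans (le_of_eq ?_) hj
    congr 1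
    rw [Finset.card_filter]
    push_cast
    rfl
  · intro x y hxy hx hy
    by_contra hcon
    push Not at hcon
    simp only [Finset.mem_filter, Finset.mem_univ, true_and, not_le] at hx hy
    have ex : p x - θ = ⌊p x - θ⌋ + Int.fract (p x - θ) := (Int.floor_add_fract _).symm
    have ey : p y - θ = ⌊p y - θ⌋ + Int.fract (p y - θ) := (Int.floor_add_fract _).symm
    have fx0 := Int.fract_nonneg (p x - θ)
    have fx1 := Int.fract_lt_one (p x - θ)
    have fy0 := Int.fract_nonneg (p y - θ)
    have fy1 := Int.fract_lt_one (p y - θ)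
    have tx : tent (Int.fract (p x - θ)) ≤ 1 - Int.fract (p x - θ) := min_le_right _ _
    have ty : tent (Int.fract (p y - θ)) ≤ Int.fract (p y - θ) := min_le_left _ _
    have hcon2 : ⌊p x - θ⌋ + 2 ≤ ⌊p y - θ⌋ := by omega
    have hcon3 : (⌊p x - θ⌋ : ℝ) + 2 ≤ (⌊p y - θ⌋ : ℝ) := by exact_mod_cast hcon2
    rcases hstar x y hxy with h | h
    · linarith
    · rcases hcon2.eq_or_lt with h2 | h2
      · have h3 := sch_add j ⌊p x - θ⌋
        rw [h2] at h3
        linarith
      · have h4 : ⌊p x - θ⌋ + 3 ≤ ⌊p y - θ⌋ := by omega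
        have h5 : (⌊p x - θ⌋ : ℝ) + 3 ≤ (⌊p y - θ⌋ : ℝ) := by exact_mod_cast h4
        have h6 := sch_le_one j ⌊p x - θ⌋
        have h7 := sch_le_one j ⌊p y - θ⌋
        linarith

end Pool.Agent.H30.Chung.Round
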