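import Pool.Agent.H30.Chung.Menger
import Pool.Agent.H30.Chung.Round

/-!
# Last step: one more cut
-/

set_option autoImplicit false

namespace Pool.Agent.H30.Chung.Upper

open SimpleGraph

variable {V : Type*} [Fintype V] [DecidableEq V]

lemma walk_bound (G : SimpleGraph V) (n : V → ℤ) (H : Finset V)
    (hn : ∀ x y, G.Adj x y → x ∉ H → y ∉ H → n y ≤ n x + 1) {x y : V} (p : G.Walk x y)
    (hp : ∀ z ∈ p.support, z ∉ H) : n y ≤ n x + p.length := by
  induction p with
  | nil => simp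
  | @cons a b c h p ih =>
    have h1 : ∀ z ∈ p.support, z ∉ H := by
      intro z hz
      apply hp
      rw [Walk.support_cons, List.mem_cons]
      right; exact hz
    have ha : a ∉ H := hp a (by simp)
    have hb : b ∉ H := h1 b (by simp)
    have h2 := ih h1
    have h3 := hn a b h ha hb
    rw [Walk.length_cons]
    push_cast
    omega

/-- clipped potential -/
def clip (d : ℕ) (n : ℤ) : ℕ := (max 0 (min (d : ℤ) (n + 1))).toNat

lemma clip_le (d : ℕ) (n : ℤ) : clip d n ≤ d := by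
  unfold clip
  omega

lemma walk_contra (G : SimpleGraph V) (w : V) (d : ℕ) (n : V → ℤ) (H A C : Finset V)
    (hn : ∀ x y, G.Adj x y → x ∉ H → y ∉ H → n y ≤ n x + 1)
    (hnw : n w = (d : ℤ) - 1) (hwA : w ∉ A)
    (hcut : ∀ x ∈ A, ∀ y, G.Adj x y → clip d (n x) + 1 ≤ clip d (n y) → y ∈ A ∨ y ∈ C)
    {x : V} (p : G.Walk x w) (hp : ∀ z ∈ p.support, z ∉ H ∧ z ∉ C) (hx : x ∈ A)
    (hx1 : -1 ≤ n x) (hlen : n x + 1 + p.length ≤ d) : False := by
  induction p with
  | nil => exact hwA hx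
  | @cons a b c h p ih =>
    have h1 : ∀ z ∈ p.support, z ∉ H ∧ z ∉ C := by
      intro z hz
      apply hp
      rw [Walk.support_cons, List.mem_cons]
      right; exact hz
    have ha := hp a (by simp)
    have hb := h1 b (by simp)
    have h2 := hn a b h ha.1 hb.1
    have h3 := walk_bound G n H hn p fun z hz => (h1 z hz).1
    rw [Walk.length_cons] at hlen
    push_cast at hlen
    have h4 : n b = n a + 1 := by omega
    have h5 : clip d (n a) + 1 ≤ clip d (n b) := by
      unfold clip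
      rw [h4]
      omega
    rcases hcut a hx b h h5 with h6 | h6
    · exact ih hnw hwA h1 h6 (by omega) (by omega)
    · exact hb.2 h6

theorem upper_of (G : SimpleGraph V) (v w : V) (d m : ℕ) (hvw : v ≠ w) (hadj : ¬ G.Adj v w)
    (hno : ¬ ∃ f : Fin (m + 1) → G.Walk v w,
      (∀ i, (f i).IsPath ∧ (f i).length ≤ d) ∧
      ∀ i j, i ≠ j → ∀ x, x ∈ (f i).support → x ∈ (f j).support → x = v ∨ x = w)
    (p u : V → ℝ) (hpv : p v = 0) (hpw : p w = d) (huv : u v = 0) (huw : u w = 0)
    (hu : ∀ x, 0 ≤ u x) (hsum : ∑ x, u x ≤ d * m)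
    (hstar : ∀ x y, G.Adj x y → p y - p x < 1 ∨ p y - p x ≤ (u x + u y) / 2) :
    ∃ S : Finset V, v ∉ S ∧ w ∉ S ∧
      (∀ p : G.Walk v w, p.IsPath → p.length ≤ d → ∃ x ∈ S, x ∈ p.support) ∧
      (S.card : ℝ) ≤ ((d : ℝ) / 3 + 1) * (m : ℝ) := by
  obtain ⟨n, H, hnv, hnw, hvH, hwH, hH, hstep⟩ :=
    Round.round G v w d p u hpv hpw huv huw hu hstar
  obtain ⟨A, C, hvA, hwA, hwC, hvC, hC, hcut⟩ := Menger.cut G v w d m hvw hadj hno
    (fun x => clip d (n x)) (by simp [clip, hnv]) (by simp [clip, hnw]) (fun x => clip_le d _)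
  refine ⟨H ∪ C, by simp [hvH, hvC], by simp [hwH, hwC], ?_, ?_⟩
  · intro p _ hlen
    by_contra hcon
    push Not at hcon
    refine walk_contra G w d n H A C hstep hnw hwA hcut p ?_ hvA (by omega) ?_
    · intro z hz
      constructor
      · intro h
        exact hcon z (Finset.mem_union_left _ h) hz
      · intro h
        exact hcon z (Finset.mem_union_right _ h) hz
    · rw [hnv]
      push_cast
      omega
  · have h1 : ((H ∪ C).card : ℝ) ≤ (H.card : ℝ) + (C.card : ℝ) := by
      exact_mod_cast Finset.card_union_le H C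
    have h2 : (C.card : ℝ) ≤ (m : ℝ) := by exact_mod_cast hC
    nlinarith

end Pool.Agent.H30.Chung.Upper
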